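import Pool.Agent.Helper84.MG.Defs

namespace Pool.Agent.Helper84.MG

/-! Boolean-valued reasoning -/

section logic
variable {B : Type*} [CompleteBooleanAlgebra B]

theorem bElim {ι : Sort*} {Γ ψ : B} {φ : ι → B} (h : Γ ≤ ⨆ i, φ i)
    (k : ∀ i, ∀ Δ ≤ Γ, Δ ≤ φ i → Δ ≤ ψ) : Γ ≤ ψ := by
  have h1 : Γ = ⨆ i, Γ ⊓ φ i := by rw [← inf_iSup_eq, inf_eq_left.2 h]
  rw [h1]
  exact iSup_le fun i => k i _ inf_le_left inf_le_right

theorem bOr {Γ ψ φ₁ φ₂ : B} (h : Γ ≤ φ₁ ⊔ φ₂) (k₁ : ∀ Δ ≤ Γ, Δ ≤ φ₁ → Δ ≤ ψ)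
    (k₂ : ∀ Δ ≤ Γ, Δ ≤ φ₂ → Δ ≤ ψ) : Γ ≤ ψ := by
  have h1 : Γ = (Γ ⊓ φ₁) ⊔ (Γ ⊓ φ₂) := by rw [← inf_sup_left, inf_eq_left.2 h]
  rw [h1]
  exact sup_le (k₁ _ inf_le_left inf_le_right) (k₂ _ inf_le_left inf_le_right)

theorem bMP {Γ φ ψ : B} (h : Γ ≤ φ ⇨ ψ) (h' : Γ ≤ φ) : Γ ≤ ψ :=
  (le_inf h h').trans himp_inf_le

theorem bImp {Γ φ ψ : B} (h : ∀ Δ ≤ Γ, Δ ≤ φ → Δ ≤ ψ) : Γ ≤ φ ⇨ ψ :=
  le_himp_iff.2 (h _ inf_le_left inf_le_right)

theorem bNot {Γ φ : B} (h : ∀ Δ ≤ Γ, Δ ≤ φ → Δ ≤ ⊥) : Γ ≤ φᶜ := by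
  rw [← himp_bot]
  exact bImp h

theorem bAbs {Γ φ : B} (h : Γ ≤ φᶜ) (h' : Γ ≤ φ) : Γ ≤ ⊥ := by
  rw [← himp_bot] at h
  exact bMP h h'

theorem bAll {ι : Sort*} {Γ : B} {φ : ι → B} (h : Γ ≤ ⨅ i, φ i) (i : ι) : Γ ≤ φ i :=
  h.trans (iInf_le _ i)

theorem bEx {ι : Sort*} {Γ : B} {φ : ι → B} (i : ι) (h : Γ ≤ φ i) : Γ ≤ ⨆ i, φ i :=
  h.trans (le_iSup _ i)

theorem bIff {Γ φ ψ : B} (h : ∀ Δ ≤ Γ, Δ ≤ φ → Δ ≤ ψ) (h' : ∀ Δ ≤ Γ, Δ ≤ ψ → Δ ≤ φ) :
    Γ ≤ SetModel.iffVal φ ψ := le_inf (bImp h) (bImp h')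

theorem bIff_mp {Γ φ ψ : B} (h : Γ ≤ SetModel.iffVal φ ψ) (h' : Γ ≤ φ) : Γ ≤ ψ :=
  bMP (h.trans inf_le_left) h'

theorem bIff_mpr {Γ φ ψ : B} (h : Γ ≤ SetModel.iffVal φ ψ) (h' : Γ ≤ ψ) : Γ ≤ φ :=
  bMP (h.trans inf_le_right) h'

theorem bLeft {Γ φ ψ : B} (h : Γ ≤ φ ⊓ ψ) : Γ ≤ φ := h.trans inf_le_left
theorem bRight {Γ φ ψ : B} (h : Γ ≤ φ ⊓ ψ) : Γ ≤ ψ := h.trans inf_le_right

theorem eq_of_forall {φ ψ : B} (h : ∀ Γ : B, Γ ≤ φ ↔ Γ ≤ ψ) : φ = ψ :=
  le_antisymm ((h φ).1 le_rfl) ((h ψ).2 le_rfl)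

end logic

namespace BName

variable {B : Type 1} [CompleteBooleanAlgebra B]

theorem eq_refl (x : BName B) : eq x x = ⊤ := by
  induction x with
  | mk ι a u ih =>
    unfold eq
    rw [eq_top_iff]
    refine le_inf (le_iInf fun i => bImp fun Δ _ h => bEx i (le_inf h ?_))
      (le_iInf fun i => bImp fun Δ _ h => bEx i (le_inf h ?_))
    · rw [ih i]; exact le_top
    · rw [ih i]; exact le_top

theorem bRefl {Γ : B} (x : BName B) : Γ ≤ eq x x := by rw [eq_refl]; exact le_top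

theorem eq_symm (x y : BName B) : eq x y = eq y x := by
  induction x generalizing y with
  | mk ι a u ih =>
    cases y with
    | mk κ b v =>
      unfold eq
      rw [inf_comm]
      congr 1
      · refine iInf_congr fun j => ?_
        congr 1
        refine iSup_congr fun i => ?_
        rw [ih i (b j)]
      · refine iInf_congr fun j => ?_
        congr 1
        refine iSup_congr fun i => ?_
        rw [ih j (b i)]

theorem bSymm {Γ : B} {x y : BName B} (h : Γ ≤ eq x y) : Γ ≤ eq y x := by rwa [eq_symm]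

theorem bTrans {x y z : BName B} {Γ : B} (h : Γ ≤ eq x y) (h' : Γ ≤ eq y z) : Γ ≤ eq x z := by
  induction x generalizing y z Γ with
  | mk ι a u ih =>
    cases y with
    | mk κ b v =>
      cases z with
      | mk μ c w =>
        unfold eq at h h' ⊢
        refine le_inf (le_iInf fun i => bImp fun Δ hΔ hu => ?_) (le_iInf fun k => bImp fun Δ hΔ hw => ?_)
        · refine bElim (bMP (bAll (bLeft (hΔ.trans h)) i) hu) fun j Δ₁ h1 h2 => ?_
          refine bElim (bMP (bAll (bLeft ((h1.trans hΔ).trans h')) j) (bLeft h2)) fun k Δ₂ h3 h4 => ?_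
          exact bEx k (le_inf (bLeft h4) (ih i (bRight (h3.trans h2)) (bRight h4)))
        · refine bElim (bMP (bAll (bRight (hΔ.trans h')) k) hw) fun j Δ₁ h1 h2 => ?_
          refine bElim (bMP (bAll (bRight ((h1.trans hΔ).trans h)) j) (bLeft h2)) fun i Δ₂ h3 h4 => ?_
          exact bEx i (le_inf (bLeft h4) (ih i (bRight h4) (bRight (h3.trans h2))))

theorem mem_mk (x : BName B) (κ : Type) (b : κ → BName B) (v : κ → B) :
    mem x (mk κ b v) = ⨆ j, v j ⊓ eq x (b j) := rfl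

theorem bMemL {Γ : B} {x y z : BName B} (h : Γ ≤ eq x y) (h' : Γ ≤ mem x z) : Γ ≤ mem y z := by
  cases z with
  | mk κ b v =>
    rw [mem_mk] at h' ⊢
    refine bElim h' fun j Δ h1 h2 => ?_
    exact bEx j (le_inf (bLeft h2) (bTrans (bSymm (h1.trans h)) (bRight h2)))

theorem bMemR {Γ : B} {x y z : BName B} (h : Γ ≤ eq y z) (h' : Γ ≤ mem x y) : Γ ≤ mem x z := by
  cases y with
  | mk κ b v =>
    cases z with
    | mk μ c w =>
      rw [mem_mk] at h' ⊢
      unfold eq at h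
      refine bElim h' fun j Δ h1 h2 => ?_
      refine bElim (bMP (bAll (bLeft (h1.trans h)) j) (bLeft h2)) fun k Δ₂ h3 h4 => ?_
      exact bEx k (le_inf (bLeft h4) (bTrans (bRight (h3.trans h2)) (bRight h4)))

theorem bExt {Γ : B} {y z : BName B}
    (h : ∀ x : BName B, ∀ Δ ≤ Γ, Δ ≤ mem x y → Δ ≤ mem x z)
    (h' : ∀ x : BName B, ∀ Δ ≤ Γ, Δ ≤ mem x z → Δ ≤ mem x y) : Γ ≤ eq y z := by
  cases y with
  | mk κ b v =>
    cases z with
    | mk μ c w =>
      unfold eq
      refine le_inf (le_iInf fun j => bImp fun Δ hΔ hv => ?_) (le_iInf fun k => bImp fun Δ hΔ hw => ?_)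
      · have h1 := h (b j) Δ hΔ (by rw [mem_mk]; exact bEx j (le_inf hv (bRefl _)))
        rw [mem_mk] at h1
        exact h1
      · have h1 := h' (c k) Δ hΔ (by rw [mem_mk]; exact bEx k (le_inf hw (bRefl _)))
        rw [mem_mk] at h1
        refine bElim h1 fun j Δ₁ h2 h3 => bEx j (le_inf (bLeft h3) (bSymm (bRight h3)))

theorem eq_eq_iInf (y z : BName B) : eq y z = ⨅ x, SetModel.iffVal (mem x y) (mem x z) := by
  refine eq_of_forall fun Γ => ⟨fun h => ?_, fun h => ?_⟩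
  · exact le_iInf fun x => bIff (fun Δ hΔ hm => bMemR (hΔ.trans h) hm)
      (fun Δ hΔ hm => bMemR (bSymm (hΔ.trans h)) hm)
  · exact bExt (fun x Δ hΔ hm => bIff_mp (bAll (hΔ.trans h) x) hm)
      (fun x Δ hΔ hm => bIff_mpr (bAll (hΔ.trans h) x) hm)

/-! ### special names -/

/-- the empty set -/
def emp : BName B := mk Empty (fun i => i.elim) (fun i => i.elim)

theorem mem_emp (x : BName B) : mem x emp = ⊥ := by
  unfold emp
  rw [mem_mk]
  exact iSup_of_empty _

/-- `{a} ∪ x` -/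
def ins (a : BName B) : BName B → BName B
  | mk ι b u => mk (Option ι) (fun o => o.elim a b) (fun o => o.elim ⊤ u)

theorem mem_ins (x a y : BName B) : mem x (ins a y) = eq x a ⊔ mem x y := by
  cases y with
  | mk ι b u =>
    unfold ins
    rw [mem_mk, mem_mk, iSup_option]
    simp

/-- the unordered pair -/
def upair (x y : BName B) : BName B := ins x (ins y emp)

theorem mem_upair (z x y : BName B) : mem z (upair x y) = eq z x ⊔ eq z y := by
  unfold upair
  rw [mem_ins, mem_ins, mem_emp, sup_bot_eq]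

/-- the ordered pair -/
def opair (x y : BName B) : BName B := upair (upair x x) (upair x y)

theorem bUpairCongr {Γ : B} {x y x' y' : BName B} (h : Γ ≤ eq x x') (h' : Γ ≤ eq y y') :
    Γ ≤ eq (upair x y) (upair x' y') := by
  refine bExt (fun z Δ hΔ hm => ?_) (fun z Δ hΔ hm => ?_)
  · rw [mem_upair] at hm ⊢
    refine bOr hm (fun Δ₁ h1 h2 => ?_) (fun Δ₁ h1 h2 => ?_)
    · exact (bTrans h2 ((h1.trans hΔ).trans h)).trans le_sup_left
    · exact (bTrans h2 ((h1.trans hΔ).trans h')).trans le_sup_right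
  · rw [mem_upair] at hm ⊢
    refine bOr hm (fun Δ₁ h1 h2 => ?_) (fun Δ₁ h1 h2 => ?_)
    · exact (bTrans h2 (bSymm ((h1.trans hΔ).trans h))).trans le_sup_left
    · exact (bTrans h2 (bSymm ((h1.trans hΔ).trans h'))).trans le_sup_right

theorem bOpairCongr {Γ : B} {x y x' y' : BName B} (h : Γ ≤ eq x x') (h' : Γ ≤ eq y y') :
    Γ ≤ eq (opair x y) (opair x' y') :=
  bUpairCongr (bUpairCongr h h) (bUpairCongr h h')

theorem bMem1 {Γ : B} (x y : BName B) : Γ ≤ mem x (upair x y) := by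
  rw [mem_upair]; exact (bRefl x).trans le_sup_left

theorem bMem2 {Γ : B} (x y : BName B) : Γ ≤ mem y (upair x y) := by
  rw [mem_upair]; exact (bRefl y).trans le_sup_right

theorem bOpairFst {Γ : B} {x y x' y' : BName B} (h : Γ ≤ eq (opair x y) (opair x' y')) :
    Γ ≤ eq x x' := by
  have h1 : Γ ≤ mem (upair x x) (opair x' y') := bMemR h (bMem1 _ _)
  unfold opair at h1
  rw [mem_upair] at h1
  refine bOr h1 (fun Δ _ h2 => ?_) (fun Δ _ h2 => ?_)
  · have h3 : Δ ≤ mem x (upair x' x') := bMemR h2 (bMem1 _ _)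
    rw [mem_upair, sup_idem] at h3
    exact h3
  · have h3 : Δ ≤ mem x' (upair x x) := bMemR (bSymm h2) (bMem1 _ _)
    rw [mem_upair, sup_idem] at h3
    exact bSymm h3

theorem bOpairSnd {Γ : B} {x y x' y' : BName B} (h : Γ ≤ eq (opair x y) (opair x' y')) :
    Γ ≤ eq y y' := by
  have hx := bOpairFst h
  have key : ∀ Δ ≤ Γ, Δ ≤ eq y x' → Δ ≤ mem (upair x' y') (opair x y) → Δ ≤ eq y y' := by
    intro Δ hΔ h1 h2
    unfold opair at h2
    rw [mem_upair] at h2
    refine bOr h2 (fun Δ₁ h3 h4 => ?_) (fun Δ₁ h3 h4 => ?_)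
    · have h5 : Δ₁ ≤ mem y' (upair x x) := bMemR h4 (bMem2 _ _)
      rw [mem_upair, sup_idem] at h5
      exact bTrans (h3.trans h1) (bTrans (bSymm ((h3.trans hΔ).trans hx)) (bSymm h5))
    · have h5 : Δ₁ ≤ mem y' (upair x y) := bMemR h4 (bMem2 _ _)
      rw [mem_upair] at h5
      refine bOr h5 (fun Δ₂ h6 h7 => ?_) (fun Δ₂ h6 h7 => bSymm h7)
      exact bTrans ((h6.trans h3).trans h1) (bTrans (bSymm (((h6.trans h3).trans hΔ).trans hx)) (bSymm h7))
  have hL : Γ ≤ mem (upair x' y') (opair x y) := bMemR (bSymm h) (bMem2 _ _)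
  have h1 : Γ ≤ mem (upair x y) (opair x' y') := bMemR h (bMem2 _ _)
  unfold opair at h1
  rw [mem_upair] at h1
  refine bOr h1 (fun Δ hΔ h2 => ?_) (fun Δ hΔ h2 => ?_)
  · have h3 : Δ ≤ mem y (upair x' x') := bMemR h2 (bMem2 _ _)
    rw [mem_upair, sup_idem] at h3
    exact key Δ hΔ h3 (hΔ.trans hL)
  · have h3 : Δ ≤ mem y (upair x' y') := bMemR h2 (bMem2 _ _)
    rw [mem_upair] at h3
    refine bOr h3 (fun Δ₁ h4 h5 => ?_) (fun Δ₁ h4 h5 => h5)
    exact key Δ₁ (h4.trans hΔ) h5 ((h4.trans hΔ).trans hL)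

/-! ### evaluation of the formulas -/

theorem isPairSet_eq (z x y : BName B) : (VB B).IsPairSet z x y = eq z (upair x y) := by
  rw [eq_eq_iInf]
  unfold SetModel.IsPairSet
  refine iInf_congr fun w => ?_
  rw [mem_upair]
  rfl

theorem isOrdPair_eq (p x y : BName B) : (VB B).IsOrdPair p x y = eq p (opair x y) := by
  rw [eq_eq_iInf]
  unfold SetModel.IsOrdPair
  refine iInf_congr fun w => ?_
  unfold opair
  rw [mem_upair, isPairSet_eq, isPairSet_eq]
  rfl

theorem app_eq (f x y : BName B) : (VB B).App f x y = mem (opair x y) f := by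
  unfold SetModel.App
  refine le_antisymm (iSup_le fun p => ?_) ?_
  · rw [isOrdPair_eq]
    exact bMemL inf_le_left inf_le_right
  · refine bEx (opair x y) (le_inf ?_ le_rfl)
    rw [isOrdPair_eq]
    exact bRefl _

/-- the successor `x ∪ {x}` -/
def suc (x : BName B) : BName B := ins x x

theorem mem_suc (z x : BName B) : mem z (suc x) = mem z x ⊔ eq z x := by
  unfold suc
  rw [mem_ins, sup_comm]

theorem isSucc_eq (m n : BName B) : (VB B).IsSucc m n = eq m (suc n) := by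
  rw [eq_eq_iInf]
  unfold SetModel.IsSucc
  refine iInf_congr fun w => ?_
  rw [mem_suc]
  rfl

theorem bSucCongr {Γ : B} {x y : BName B} (h : Γ ≤ eq x y) : Γ ≤ eq (suc x) (suc y) := by
  refine bExt (fun z Δ hΔ hm => ?_) (fun z Δ hΔ hm => ?_)
  · rw [mem_suc] at hm ⊢
    refine bOr hm (fun Δ₁ h1 h2 => ?_) (fun Δ₁ h1 h2 => ?_)
    · exact (bMemR ((h1.trans hΔ).trans h) h2).trans le_sup_left
    · exact (bTrans h2 ((h1.trans hΔ).trans h)).trans le_sup_right
  · rw [mem_suc] at hm ⊢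
    refine bOr hm (fun Δ₁ h1 h2 => ?_) (fun Δ₁ h1 h2 => ?_)
    · exact (bMemR (bSymm ((h1.trans hΔ).trans h)) h2).trans le_sup_left
    · exact (bTrans h2 (bSymm ((h1.trans hΔ).trans h))).trans le_sup_right

/-- natural numbers -/
def nat : ℕ → BName B
  | 0 => emp
  | n + 1 => suc (nat n)

/-- the set of natural numbers -/
def omg : BName B := mk ℕ nat (fun _ => ⊤)

theorem mem_omg (x : BName B) : mem x omg = ⨆ n, eq x (nat n) := by
  unfold omg
  rw [mem_mk]
  simp

theorem mem_nat (x : BName B) (n : ℕ) : mem x (nat n) = ⨆ i : Fin n, eq x (nat i) := by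
  induction n with
  | zero =>
    show mem x emp = _
    rw [mem_emp]
    exact (iSup_of_empty _).symm
  | succ n ih =>
    show mem x (suc (nat n)) = _
    rw [mem_suc, ih]
    refine le_antisymm (sup_le (iSup_le fun i => ?_) ?_) (iSup_le fun i => ?_)
    · exact le_iSup (fun i : Fin (n+1) => eq x (nat i)) i.castSucc
    · exact le_iSup (fun i : Fin (n+1) => eq x (nat i)) (Fin.last n)
    · refine Fin.lastCases ?_ (fun j => ?_) i
      · exact le_sup_right
      · exact le_sup_of_le_left (le_iSup (fun i : Fin n => eq x (nat i)) j)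

theorem bNatMem {Γ : B} {i n : ℕ} (h : i < n) : Γ ≤ mem (nat i) (nat n) := by
  rw [mem_nat]
  exact bEx ⟨i, h⟩ (bRefl _)

theorem nat_irrefl (n : ℕ) : mem (nat n : BName B) (nat n) = ⊥ := by
  induction n using Nat.strong_induction_on with
  | _ n ih =>
    rw [mem_nat, eq_bot_iff]
    refine iSup_le fun i => ?_
    rw [← ih i i.2]
    exact bMemR le_rfl (bNatMem i.2)

theorem nat_ne {i j : ℕ} (h : i ≠ j) : eq (nat i : BName B) (nat j) = ⊥ := by
  rcases Nat.lt_or_gt_of_ne h with h | h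
  · rw [eq_bot_iff, ← nat_irrefl (B := B) i]
    exact bMemR (bSymm le_rfl) (bNatMem h)
  · rw [eq_bot_iff, ← nat_irrefl (B := B) j]
    exact bMemR le_rfl (bNatMem h)

theorem bNatEq {Γ : B} {i j : ℕ} (h : Γ ≤ eq (nat i) (nat j)) : Γ = ⊥ ∨ i = j := by
  by_cases hij : i = j
  · exact Or.inr hij
  · rw [nat_ne hij, le_bot_iff] at h
    exact Or.inl h

theorem omg_inductive : (VB B).IsInductive (omg : BName B) = ⊤ := by
  rw [eq_top_iff]
  unfold SetModel.IsInductive
  refine le_inf (bEx (nat 0) (le_inf ?_ ?_)) (le_iInf fun n => bImp fun Δ _ h => ?_)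
  · refine le_iInf fun y => ?_
    show ⊤ ≤ (mem y emp)ᶜ
    rw [mem_emp, compl_bot]
  · show ⊤ ≤ mem (nat 0) omg
    rw [mem_omg]
    exact bEx 0 (bRefl _)
  · have h' : Δ ≤ mem n omg := h
    rw [mem_omg] at h'
    refine bElim h' fun k Δ₁ _ h2 => ?_
    refine bEx (suc n) (le_inf ?_ ?_)
    · rw [isSucc_eq]; exact bRefl _
    · show _ ≤ mem (suc n) omg
      rw [mem_omg]
      exact bEx (k+1) (bSucCongr h2)

theorem bEmp {Γ : B} {z : BName B} (h : Γ ≤ ⨅ y : BName B, (mem y z)ᶜ) : Γ ≤ eq z emp := by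
  refine bExt (fun x Δ hΔ hm => ?_) (fun x Δ hΔ hm => ?_)
  · exact (bAbs (bAll (hΔ.trans h) x) hm).trans bot_le
  · rw [mem_emp] at hm
    exact hm.trans bot_le

theorem bOmgSub {Γ : B} {v : BName B} (h : Γ ≤ (VB B).IsInductive v) (k : ℕ) :
    Γ ≤ mem (nat k) v := by
  unfold SetModel.IsInductive at h
  induction k with
  | zero =>
    refine bElim (bLeft h) fun z Δ _ h2 => ?_
    have h3 : Δ ≤ ⨅ y : BName B, (mem y z)ᶜ := bLeft h2
    have h4 : Δ ≤ mem z v := bRight h2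
    exact bMemL (bEmp h3) h4
  | succ k ih =>
    refine bElim (bMP (bAll (bRight h) (nat k : BName B)) ih) fun m Δ _ h2 => ?_
    rw [isSucc_eq] at h2
    exact bMemL (bLeft h2) (bRight h2)

theorem isOmega_eq (w : BName B) : (VB B).IsOmega w = eq w omg := by
  refine eq_of_forall fun Γ => ⟨fun h => ?_, fun h => ?_⟩
  · unfold SetModel.IsOmega at h
    refine bExt (fun x Δ hΔ hm => ?_) (fun x Δ hΔ hm => ?_)
    · have h1 : Δ ≤ (VB B).Sub w omg := bMP (bAll (bRight (hΔ.trans h)) (omg : BName B))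
        (by rw [omg_inductive]; exact le_top)
      exact bMP (bAll h1 x) hm
    · rw [mem_omg] at hm
      refine bElim hm fun k Δ₁ h1 h2 => ?_
      exact bMemL (bSymm h2) (bOmgSub (bLeft ((h1.trans hΔ).trans h)) k)
  · unfold SetModel.IsOmega
    refine le_inf ?_ (le_iInf fun v => bImp fun Δ hΔ hv => le_iInf fun x => bImp fun Δ₁ h1 h2 => ?_)
    · unfold SetModel.IsInductive
      refine le_inf ?_ (le_iInf fun n => bImp fun Δ hΔ hn => ?_)
      · have h1 : Γ ≤ (VB B).IsInductive (omg : BName B) := by rw [omg_inductive]; exact le_top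
        unfold SetModel.IsInductive at h1
        refine bElim (bLeft h1) fun z Δ hΔ h2 => ?_
        exact bEx z (le_inf (bLeft h2) (bMemR (bSymm (hΔ.trans h)) (bRight h2)))
      · have h1 : Δ ≤ (VB B).IsInductive (omg : BName B) := by rw [omg_inductive]; exact le_top
        unfold SetModel.IsInductive at h1
        have h3 : Δ ≤ mem n omg := bMemR (hΔ.trans h) hn
        refine bElim (bMP (bAll (bRight h1) n) h3) fun m Δ₁ h4 h5 => ?_
        exact bEx m (le_inf (bLeft h5) (bMemR (bSymm ((h4.trans hΔ).trans h)) (bRight h5)))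
    · have h3 : Δ₁ ≤ mem x omg := bMemR ((h1.trans hΔ).trans h) h2
      rw [mem_omg] at h3
      refine bElim h3 fun k Δ₂ h4 h5 => ?_
      exact bMemL (bSymm h5) (bOmgSub ((h4.trans h1).trans hv) k)

/-! ### check names -/

theorem checkP_eq (x y : PSet.{0}) : (x.Equiv y → eq (checkP x : BName B) (checkP y) = ⊤) ∧
    (¬ x.Equiv y → eq (checkP x : BName B) (checkP y) = ⊥) := by
  induction x generalizing y with
  | mk ι A ih =>
    cases y with
    | mk κ C =>
      constructor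
      · intro h
        obtain ⟨h1, h2⟩ := h
        unfold checkP eq
        rw [eq_top_iff]
        refine le_inf (le_iInf fun i => bImp fun Δ _ _ => ?_) (le_iInf fun j => bImp fun Δ _ _ => ?_)
        · obtain ⟨j, hj⟩ := h1 i
          exact bEx j (le_inf le_top (by rw [(ih i (C j)).1 hj]; exact le_top))
        · obtain ⟨i, hi⟩ := h2 j
          exact bEx i (le_inf le_top (by rw [(ih i (C j)).1 hi]; exact le_top))
      · intro h
        rw [PSet.Equiv, not_and_or] at h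
        unfold checkP eq
        rw [eq_bot_iff]
        rcases h with h | h
        · push Not at h
          obtain ⟨i, hi⟩ := h
          refine inf_le_left.trans ((iInf_le _ i).trans ?_)
          rw [top_himp]
          refine iSup_le fun j => inf_le_right.trans ?_
          rw [(ih i (C j)).2 (hi j)]
        · push Not at h
          obtain ⟨j, hj⟩ := h
          refine inf_le_right.trans ((iInf_le _ j).trans ?_)
          rw [top_himp]
          refine iSup_le fun i => inf_le_right.trans ?_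
          rw [(ih i (C j)).2 (hj i)]

theorem check_ne {x y : ZFSet.{0}} (h : x ≠ y) : eq (check x : BName B) (check y) = ⊥ := by
  unfold check
  refine (checkP_eq _ _).2 fun h' => h ?_
  rw [← ZFSet.mk_out x, ← ZFSet.mk_out y]
  exact ZFSet.sound h'

theorem checkP_check (x : PSet.{0}) : eq (checkP x : BName B) (check (ZFSet.mk x)) = ⊤ := by
  unfold check
  refine (checkP_eq _ _).1 ?_
  exact PSet.Equiv.symm (Quotient.mk_out x)

theorem mem_check (z : BName B) (y : ZFSet.{0}) :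
    mem z (check y) = ⨆ x : {x // x ∈ y}, eq z (check x.1) := by
  have hy : ZFSet.mk y.out = y := ZFSet.mk_out y
  unfold check
  cases hout : y.out with
  | mk ι A =>
    rw [hout] at hy
    show (⨆ i : ι, (⊤ : B) ⊓ eq z (checkP (A i))) = _
    simp only [top_inf_eq]
    refine le_antisymm (iSup_le fun i => ?_) (iSup_le fun x => ?_)
    · have hm : ZFSet.mk (A i) ∈ y := by
        rw [← hy, ZFSet.mk_mem_iff]
        exact PSet.Mem.mk A i
      refine le_trans ?_ (le_iSup (fun x : {x // x ∈ y} => eq z (checkP (x.1.out))) ⟨_, hm⟩)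
      exact bTrans le_rfl (by
        have := checkP_check (B := B) (A i)
        unfold check at this
        rw [this]
        exact le_top)
    · obtain ⟨x, hx⟩ := x
      have hx' : ZFSet.mk x.out ∈ ZFSet.mk (PSet.mk ι A) := by
        rw [ZFSet.mk_out, hy]; exact hx
      rw [ZFSet.mk_mem_iff] at hx'
      obtain ⟨i, hi⟩ := hx'
      refine le_trans ?_ (le_iSup (fun i => eq z (checkP (A i))) i)
      have h5 : eq (checkP x.out : BName B) (checkP (A i)) = ⊤ := (checkP_eq _ _).1 hi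
      exact bTrans le_rfl (le_top.trans (le_of_eq h5.symm))

end BName

end Pool.Agent.Helper84.MG
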