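import Pool.Agent.Helper84.MG.BV

namespace Pool.Agent.Helper84.MG

open BName

/-- a dense copy of the binary tree in `B` -/
structure CohenData (B : Type 1) [CompleteBooleanAlgebra B] where
  e : List Bool → B
  ne : ∀ s, e s ≠ ⊥
  mono : ∀ s t, s <+: t → e t ≤ e s
  disj : ∀ s t, ¬ s <+: t → ¬ t <+: s → e s ⊓ e t = ⊥
  dense : ∀ b : B, b ≠ ⊥ → ∃ s, e s ≤ b

/-- `t` is an initial segment of `x` -/
def Seg (t : List Bool) (x : ℕ → Bool) : Prop := ∀ j i, t[j]? = some i → x j = i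

/-- names for the points and basic clopen sets of the ground model Cantor space -/
structure SpaceData {B : Type 1} [CompleteBooleanAlgebra B] (X τ : BName B) where
  pt : (ℕ → Bool) → BName B
  cyl : List Bool → BName B
  hX : ∀ z, mem z X = ⨆ x, eq z (pt x)
  hcyl : ∀ z t, mem z (cyl t) = ⨆ x : {x // Seg t x}, eq z (pt x.1)
  hne : ∀ x y, x ≠ y → eq (pt x) (pt y) = ⊥
  hτ : ∀ t, mem (cyl t) τ = ⊤

section
variable {B : Type 1} [CompleteBooleanAlgebra B]

theorem exists_inf_ne {ι : Sort*} {b : B} {φ : ι → B} (hb : b ≠ ⊥) (h : b ≤ ⨆ i, φ i) :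
    ∃ i, b ⊓ φ i ≠ ⊥ := by
  by_contra hn
  push Not at hn
  apply hb
  have h1 : b = ⨆ i, b ⊓ φ i := by rw [← inf_iSup_eq, inf_eq_left.2 h]
  rw [h1]
  simp [hn]

def bit (i : Bool) (b : B) : B := if i then b else bᶜ

theorem bit_inf_not (i : Bool) (b : B) : bit i b ⊓ bit (!i) b = ⊥ := by
  cases i <;> simp [bit]

theorem bit_sup_not (b : B) : bit true b ⊔ bit false b = ⊤ := by
  simp [bit]

theorem bit_of_not {Γ : B} {i : Bool} {b : B} (h : Γ ≤ (bit (!i) b)ᶜ) : Γ ≤ bit i b := by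
  cases i <;> simpa [bit] using h

variable (D : CohenData B)

/-- truth value of `c(j) = 1` for the Cohen real `c` -/
def cb (j : ℕ) : B := ⨆ r : {r : List Bool // r[j]? = some true}, D.e r.1

theorem e_le_bit {r : List Bool} {j : ℕ} {i : Bool} (h : r[j]? = some i) :
    D.e r ≤ bit i (cb D j) := by
  cases i with
  | true => exact le_iSup (fun r : {r : List Bool // r[j]? = some true} => D.e r.1) ⟨r, h⟩
  | false =>
    show D.e r ≤ (cb D j)ᶜ
    rw [le_compl_iff_disjoint_right, disjoint_iff, cb, inf_iSup_eq, iSup_eq_bot]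
    rintro ⟨r', hr'⟩
    refine D.disj _ _ (fun hp => ?_) (fun hp => ?_)
    · obtain ⟨u, rfl⟩ := hp
      have hj : j < r.length := by
        rw [List.getElem?_eq_some_iff] at h; exact h.1
      rw [List.getElem?_append_left hj, h] at hr'
      simp at hr'
    · obtain ⟨u, rfl⟩ := hp
      have hj : j < r'.length := by
        rw [List.getElem?_eq_some_iff] at hr'; exact hr'.1
      rw [List.getElem?_append_left hj, hr'] at h
      simp at h

/-- truth value of `z_s(j) = 1`, where `z_s` is `c` with its beginning replaced by `s` -/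
def zb (s : List Bool) (j : ℕ) : B := match s[j]? with
  | some true => ⊤
  | some false => ⊥
  | none => cb D j

/-- truth value of `t ⊆ z_s` -/
def ag (s t : List Bool) : B := ⨅ j : ℕ, (t[j]?).elim ⊤ fun i => bit i (zb D s j)

theorem le_ag {Γ : B} {s t : List Bool} :
    Γ ≤ ag D s t ↔ ∀ j i, t[j]? = some i → Γ ≤ bit i (zb D s j) := by
  unfold ag
  rw [le_iInf_iff]
  refine forall_congr' fun j => ?_
  cases h : t[j]? with
  | none => simp
  | some i => simp

theorem ag_nil (s : List Bool) : ag D s [] = ⊤ := by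
  rw [eq_top_iff, le_ag]
  intro j i h
  simp at h

theorem le_ag_snoc {Γ : B} {s t : List Bool} {i : Bool} :
    Γ ≤ ag D s (t ++ [i]) ↔ Γ ≤ ag D s t ∧ Γ ≤ bit i (zb D s t.length) := by
  rw [le_ag, le_ag]
  constructor
  · intro h
    refine ⟨fun j i' hj => h j i' ?_, h t.length i (by simp)⟩
    have hj' : j < t.length := by rw [List.getElem?_eq_some_iff] at hj; exact hj.1
    rw [List.getElem?_append_left hj']
    exact hj
  · rintro ⟨h1, h2⟩ j i' hj
    rcases Nat.lt_trichotomy j t.length with h3 | h3 | h3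
    · rw [List.getElem?_append_left h3] at hj
      exact h1 j i' hj
    · subst h3
      simp at hj
      subst hj
      exact h2
    · rw [List.getElem?_append_right h3.le] at hj
      have : j - t.length ≠ 0 := by omega
      obtain ⟨m, hm⟩ := Nat.exists_eq_succ_of_ne_zero this
      rw [hm] at hj
      simp at hj

theorem zb_of_len {s : List Bool} {j : ℕ} (h : s.length ≤ j) : zb D s j = cb D j := by
  unfold zb
  rw [List.getElem?_eq_none h]

/-- the first `j` digits of `x` -/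
def res (x : ℕ → Bool) (j : ℕ) : List Bool := (List.range j).map x

theorem res_length (x : ℕ → Bool) (j : ℕ) : (res x j).length = j := by simp [res]

theorem res_succ (x : ℕ → Bool) (j : ℕ) : res x (j+1) = res x j ++ [x j] := by
  simp [res, List.range_succ]

theorem res_getElem? (x : ℕ → Bool) (j k : ℕ) (h : k < j) : (res x j)[k]? = some (x k) := by
  simp [res, h]

theorem seg_res (x : ℕ → Bool) (j : ℕ) : Seg (res x j) x := by
  intro k i h
  have hk : k < j := by
    rw [List.getElem?_eq_some_iff] at h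
    have := h.1
    rwa [res_length] at this
  rw [res_getElem? x j k hk] at h
  exact Option.some.inj h

/-- the real `z_s` is different from every ground model real `x` -/
theorem new_real (s : List Bool) (x : ℕ → Bool) : ⨆ j, ag D s (res x j ++ [!(x j)]) = ⊤ := by
  by_contra hne
  set b : B := (⨆ j, ag D s (res x j ++ [!(x j)]))ᶜ with hb
  have hb0 : b ≠ ⊥ := by
    intro h
    apply hne
    rw [hb, compl_eq_bot] at h
    exact h
  obtain ⟨r, hr⟩ := D.dense b hb0
  set j0 := max r.length s.length with hj0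
  set r1 := r ++ List.replicate (j0 - r.length) false with hr1
  have hr1l : r1.length = j0 := by rw [hr1]; simp; omega
  set r2 := r1 ++ [!(x j0)] with hr2
  have h1 : D.e r2 ≤ b := (D.mono _ _ (by
    rw [hr2, hr1, List.append_assoc]; exact List.prefix_append _ _)).trans hr
  have h2 : D.e r2 ≤ bit (!(x j0)) (zb D s j0) := by
    rw [zb_of_len D (le_max_right _ _)]
    apply e_le_bit
    have h3 : r2[r1.length]? = some (!(x j0)) := by
      rw [hr2, List.getElem?_append_right le_rfl, Nat.sub_self]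
      rfl
    rw [hr1l] at h3
    exact h3
  have hag : ∀ j ≤ j0, D.e r2 ≤ ag D s (res x j) := by
    intro j
    induction j with
    | zero => intro _; rw [show res x 0 = [] from rfl, ag_nil]; exact le_top
    | succ j ih =>
      intro hj
      have ih' := ih (by omega)
      rw [res_succ, le_ag_snoc]
      refine ⟨ih', ?_⟩
      rw [res_length]
      apply bit_of_not
      apply bNot
      intro Δ hΔ h3
      have h4 : Δ ≤ ag D s (res x j ++ [!(x j)]) := by
        rw [le_ag_snoc, res_length]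
        exact ⟨hΔ.trans ih', h3⟩
      exact bAbs (hΔ.trans h1) (bEx j h4)
  have h5 : D.e r2 ≤ ag D s (res x j0 ++ [!(x j0)]) := by
    rw [le_ag_snoc, res_length]
    exact ⟨hag j0 le_rfl, h2⟩
  exact D.ne r2 (le_bot_iff.1 (bAbs h1 (bEx j0 h5)))

theorem exists_ag (s : List Bool) {b : B} (hb : b ≠ ⊥) (m : ℕ) :
    ∃ t : List Bool, t.length = m ∧ b ⊓ ag D s t ≠ ⊥ := by
  induction m with
  | zero => exact ⟨[], rfl, by rw [ag_nil, inf_top_eq]; exact hb⟩
  | succ m ih =>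
    obtain ⟨t, ht, hbt⟩ := ih
    have h1 : ∃ i, (b ⊓ ag D s t) ⊓ bit i (zb D s m) ≠ ⊥ := by
      by_contra hn
      push Not at hn
      apply hbt
      calc b ⊓ ag D s t = (b ⊓ ag D s t) ⊓ (bit true (zb D s m) ⊔ bit false (zb D s m)) := by
            rw [bit_sup_not, inf_top_eq]
        _ = ⊥ := by rw [inf_sup_left, hn true, hn false, sup_bot_eq]
    obtain ⟨i, hi⟩ := h1
    refine ⟨t ++ [i], by simp [ht], fun h => hi ?_⟩
    rw [← le_bot_iff, ← h]
    refine le_inf (inf_le_left.trans inf_le_left) ?_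
    rw [le_ag_snoc, ht]
    exact ⟨inf_le_left.trans inf_le_right, inf_le_right⟩

theorem seg_of_ag {s t : List Bool} {b : B} (hb : b ≠ ⊥) (h : b ≤ ag D s t) (hl : s.length ≤ t.length)
    {x : ℕ → Bool} (hx : Seg t x) : Seg s x := by
  intro j i hj
  have hjs : j < s.length := by rw [List.getElem?_eq_some_iff] at hj; exact hj.1
  have hjt : j < t.length := by omega
  have h1 : t[j]? = some t[j] := List.getElem?_eq_getElem hjt
  rw [hx j _ h1]
  have h2 := (le_ag D).1 h j _ h1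
  have h3 : zb D s j = if i then ⊤ else ⊥ := by
    unfold zb; rw [hj]; cases i <;> rfl
  rw [h3] at h2
  by_contra hne
  apply hb
  rw [← le_bot_iff]
  refine h2.trans ?_
  revert hne
  cases t[j] <;> cases i <;> simp [bit]

theorem ag_contra {s t u : List Bool} {i : Bool} {x : ℕ → Bool} {Γ : B} (h : Γ ≤ ag D s t)
    (hx : Seg t x) (hu : Seg (u ++ [i]) x) (hl : u.length < t.length)
    (h' : Γ ≤ ag D s (u ++ [!i])) : Γ ≤ ⊥ := by
  have h1 : x u.length = i := hu u.length i (by simp)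
  have h2 : t[u.length]? = some t[u.length] := List.getElem?_eq_getElem hl
  have h3 := hx _ _ h2
  have h4 := (le_ag D).1 h _ _ h2
  rw [← h3, h1] at h4
  have h5 := ((le_ag_snoc D).1 h').2
  rw [← bit_inf_not i (zb D s u.length)]
  exact le_inf h4 h5

/-! ### the covers -/

variable {X τ : BName B} (E : SpaceData X τ)

/-- the cover `U_{z_s}` -/
def cov (s : List Bool) : BName B :=
  BName.mk (List Bool × Bool) (fun p => E.cyl (p.1 ++ [p.2])) (fun p => ag D s (p.1 ++ [!p.2]))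

theorem mem_cov (z : BName B) (s : List Bool) :
    mem z (cov D E s) = ⨆ p : List Bool × Bool, ag D s (p.1 ++ [!p.2]) ⊓ eq z (E.cyl (p.1 ++ [p.2])) := rfl

theorem cyl_open {Γ : B} {O : BName B} {t : List Bool} (h : Γ ≤ eq O (E.cyl t)) :
    Γ ≤ (VB B).IsOpenSet X τ O := by
  unfold SetModel.IsOpenSet
  refine le_inf (le_iInf fun z => bImp fun Δ hΔ hz => ?_) (le_iInf fun z => bImp fun Δ hΔ hz => ?_)
  · have h1 : Δ ≤ mem z (E.cyl t) := bMemR (hΔ.trans h) hz
    rw [E.hcyl] at h1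
    show Δ ≤ mem z X
    rw [E.hX]
    exact bElim h1 fun x Δ₁ _ h2 => bEx x.1 h2
  · refine bEx (E.cyl t) (le_inf (le_inf ?_ ?_) ?_)
    · show Δ ≤ mem (E.cyl t) τ
      rw [E.hτ]; exact le_top
    · exact bMemR (hΔ.trans h) hz
    · exact le_iInf fun y => bImp fun Δ₁ h1 h2 => bMemR (bSymm ((h1.trans hΔ).trans h)) h2

theorem cov_cover (s : List Bool) {Γ : B} : Γ ≤ (VB B).IsOpenCover X τ (cov D E s) := by
  unfold SetModel.IsOpenCover
  refine le_inf (le_iInf fun O => bImp fun Δ hΔ hO => ?_) (le_iInf fun z => bImp fun Δ hΔ hz => ?_)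
  · have h1 : Δ ≤ mem O (cov D E s) := hO
    rw [mem_cov] at h1
    exact bElim h1 fun p Δ₁ _ h2 => cyl_open E (bRight h2)
  · have h1 : Δ ≤ mem z X := hz
    rw [E.hX] at h1
    refine bElim h1 fun x Δ₁ _ h2 => ?_
    have h3 : Δ₁ ≤ ⨆ j, ag D s (res x j ++ [!(x j)]) := by rw [new_real]; exact le_top
    refine bElim h3 fun j Δ₂ h4 h5 => ?_
    refine bEx (E.cyl (res x j ++ [x j])) (le_inf ?_ ?_)
    · show Δ₂ ≤ mem _ (cov D E s)
      rw [mem_cov]
      exact bEx (res x j, x j) (le_inf h5 (bRefl _))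
    · show Δ₂ ≤ mem z _
      rw [E.hcyl]
      refine bEx ⟨x, ?_⟩ (h4.trans h2)
      rw [← res_succ]
      exact seg_res x (j+1)

theorem bCoverCongr {Γ : B} {U U' : BName B} (h : Γ ≤ eq U U')
    (h' : Γ ≤ (VB B).IsOpenCover X τ U') : Γ ≤ (VB B).IsOpenCover X τ U := by
  unfold SetModel.IsOpenCover at h' ⊢
  refine le_inf (le_iInf fun O => bImp fun Δ hΔ hO => ?_) (le_iInf fun z => bImp fun Δ hΔ hz => ?_)
  · exact bMP (bAll (bLeft (hΔ.trans h')) O) (bMemR (hΔ.trans h) hO)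
  · refine bElim (bMP (bAll (bRight (hΔ.trans h')) z) hz) fun O Δ₁ h1 h2 => ?_
    exact bEx O (le_inf (bMemR (bSymm ((h1.trans hΔ).trans h)) (bLeft h2)) (bRight h2))

/-! ### finite subsets of the covers -/

/-- truth value of: `y` is one of the first elements of the cover -/
def firsts (s : List Bool) (m : ℕ) (y : BName B) : B :=
  ⨆ p : {p : List Bool × Bool // p.1.length < m},
    ag D s (p.1.1 ++ [!p.1.2]) ⊓ eq y (E.cyl (p.1.1 ++ [p.1.2]))

theorem firsts_mono {s : List Bool} {m m' : ℕ} (h : m ≤ m') (y : BName B) :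
    firsts D E s m y ≤ firsts D E s m' y :=
  iSup_le fun p => le_iSup (fun p : {p : List Bool × Bool // p.1.length < m'} =>
    ag D s (p.1.1 ++ [!p.1.2]) ⊓ eq y (E.cyl (p.1.1 ++ [p.1.2]))) ⟨p.1, lt_of_lt_of_le p.2 h⟩

theorem finite_firsts {s : List Bool} {F : BName B} {b : B} (hb : b ≠ ⊥)
    (hfin : b ≤ (VB B).IsFinite F) (hsub : b ≤ (VB B).Sub F (cov D E s)) :
    ∃ b' ≤ b, b' ≠ ⊥ ∧ ∃ m, ∀ y, ∀ Γ ≤ b', Γ ≤ mem y F → Γ ≤ firsts D E s m y := by
  unfold SetModel.IsFinite at hfin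
  obtain ⟨w, hw⟩ := exists_inf_ne hb hfin
  obtain ⟨n, hn⟩ := exists_inf_ne hw inf_le_right
  obtain ⟨g, hg⟩ := exists_inf_ne hn inf_le_right
  set b1 := ((b ⊓ ⨆ n, ⨆ g, (((VB B).IsOmega w ⊓ (VB B).mem n w) ⊓ (VB B).IsFunOn g n) ⊓
    ⨅ y, (VB B).mem y F ⇨ ⨆ i, (VB B).App g i y) ⊓ ⨆ g, (((VB B).IsOmega w ⊓ (VB B).mem n w) ⊓ (VB B).IsFunOn g n) ⊓
    ⨅ y, (VB B).mem y F ⇨ ⨆ i, (VB B).App g i y) ⊓ ((((VB B).IsOmega w ⊓ (VB B).mem n w) ⊓ (VB B).IsFunOn g n) ⊓
    ⨅ y, (VB B).mem y F ⇨ ⨆ i, (VB B).App g i y) with hb1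
  have hb1b : b1 ≤ b := inf_le_left.trans (inf_le_left.trans inf_le_left)
  have h1 : b1 ≤ ((((VB B).IsOmega w ⊓ (VB B).mem n w) ⊓ (VB B).IsFunOn g n) ⊓
    ⨅ y, (VB B).mem y F ⇨ ⨆ i, (VB B).App g i y) := inf_le_right
  clear_value b1
  have hw1 : b1 ≤ eq w omg := by
    rw [← isOmega_eq]; exact bLeft (bLeft (bLeft h1))
  have hn1 : b1 ≤ mem n omg := bMemR hw1 (bRight (bLeft (bLeft h1)))
  rw [mem_omg] at hn1
  obtain ⟨k, hk⟩ := exists_inf_ne hg hn1
  set b2 := b1 ⊓ eq n (nat k) with hb2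
  have hb21 : b2 ≤ b1 := inf_le_left
  have hnk : b2 ≤ eq n (nat k) := inf_le_right
  clear_value b2
  have hfun : b2 ≤ (VB B).IsFunOn g n := hb21.trans (bRight (bLeft h1))
  have hcov : b2 ≤ ⨅ y, (VB B).mem y F ⇨ ⨆ i, (VB B).App g i y := hb21.trans (bRight h1)
  unfold SetModel.IsFunOn SetModel.IsFunction at hfun
  -- single-valuedness
  have hsv : ∀ x y y', ∀ Γ ≤ b2, Γ ≤ mem (opair x y) g → Γ ≤ mem (opair x y') g → Γ ≤ eq y y' := by
    intro x y y' Γ hΓ h2 h3
    refine bMP (bAll (bAll (bAll (bRight (bLeft (hΓ.trans hfun))) x) y) y') (le_inf ?_ ?_)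
    · rw [app_eq]; exact h2
    · rw [app_eq]; exact h3
  have key : ∀ i ≤ k, ∃ b' ≤ b2, b' ≠ ⊥ ∧ ∃ m, ∀ i' < i, ∀ y, ∀ Γ ≤ b', Γ ≤ mem (opair (nat i') y) g →
      Γ ≤ mem y F → Γ ≤ firsts D E s m y := by
    intro i
    induction i with
    | zero => intro _; exact ⟨b2, le_rfl, hk, 0, fun i' hi' => absurd hi' (Nat.not_lt_zero _)⟩
    | succ i ih =>
      intro hi
      obtain ⟨b', hb', hb'0, m, hm⟩ := ih (by omega)
      have h2 : b' ≤ ⨆ y, (VB B).App g (nat i : BName B) y := by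
        refine bIff_mp (bAll (bRight (hb'.trans hfun)) (nat i : BName B)) ?_
        exact bMemR (bSymm (hb'.trans hnk)) (bNatMem (by omega))
      obtain ⟨y0, hy0⟩ := exists_inf_ne hb'0 h2
      rw [app_eq] at hy0
      by_cases hF : (b' ⊓ mem (opair (nat i) y0) g) ⊓ mem y0 F = ⊥
      · refine ⟨b' ⊓ mem (opair (nat i) y0) g, inf_le_left.trans hb', hy0, m, ?_⟩
        intro i' hi' y Γ hΓ hΓ1 hΓ2
        rcases Nat.lt_succ_iff_lt_or_eq.1 hi' with h3 | h3
        · exact hm i' h3 y Γ (hΓ.trans inf_le_left) hΓ1 hΓ2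
        · subst h3
          have h4 : Γ ≤ eq y y0 := hsv _ _ _ Γ (hΓ.trans (inf_le_left.trans hb')) hΓ1 (hΓ.trans inf_le_right)
          have h5 : Γ ≤ ⊥ := by
            rw [← hF]
            exact le_inf hΓ (bMemL h4 hΓ2)
          exact h5.trans bot_le
      · have h3 : (b' ⊓ mem (opair (nat i) y0) g) ⊓ mem y0 F ≤ mem y0 (cov D E s) := by
          have h4 : (b' ⊓ mem (opair (nat i) y0) g) ⊓ mem y0 F ≤ b :=
            (inf_le_left.trans inf_le_left).trans (hb'.trans (hb21.trans hb1b))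
          exact bMP (bAll (h4.trans hsub) y0) inf_le_right
        rw [mem_cov] at h3
        obtain ⟨p, hp⟩ := exists_inf_ne hF h3
        refine ⟨_, (inf_le_left.trans (inf_le_left.trans inf_le_left)).trans hb', hp, max m (p.1.length + 1), ?_⟩
        intro i' hi' y Γ hΓ hΓ1 hΓ2
        rcases Nat.lt_succ_iff_lt_or_eq.1 hi' with h4 | h4
        · exact (hm i' h4 y Γ (hΓ.trans (inf_le_left.trans (inf_le_left.trans inf_le_left))) hΓ1 hΓ2).trans
            (firsts_mono D E (le_max_left _ _) y)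
        · subst h4
          have h5 : Γ ≤ eq y y0 := hsv _ _ _ Γ (hΓ.trans ((inf_le_left.trans (inf_le_left.trans inf_le_left)).trans hb')) hΓ1
            (hΓ.trans (inf_le_left.trans (inf_le_left.trans inf_le_right)))
          have h6 : Γ ≤ ag D s (p.1 ++ [!p.2]) ⊓ eq y0 (E.cyl (p.1 ++ [p.2])) := hΓ.trans inf_le_right
          exact bEx ⟨p, by omega⟩ (le_inf (bLeft h6) (bTrans h5 (bRight h6)))
  obtain ⟨b', hb', hb'0, m, hm⟩ := key k le_rfl
  refine ⟨b', hb'.trans (hb21.trans hb1b), hb'0, m, ?_⟩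
  intro y Γ hΓ hy
  refine bElim (bMP (bAll ((hΓ.trans hb').trans hcov) y) hy) fun i Δ h2 h3 => ?_
  have h3' := h3
  rw [app_eq] at h3'
  have h4 : Δ ≤ mem i n := by
    refine bIff_mpr (bAll (bRight ((h2.trans (hΓ.trans hb')).trans hfun)) i) ?_
    exact bEx y h3
  have h5 : Δ ≤ mem i (nat k) := bMemR ((h2.trans (hΓ.trans hb')).trans hnk) h4
  rw [mem_nat] at h5
  refine bElim h5 fun j Δ₁ h6 h7 => ?_
  refine hm j j.2 y Δ₁ (h6.trans (h2.trans hΓ)) ?_ ((h6.trans h2).trans hy)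
  exact bMemL (bOpairCongr h7 (bRefl y)) (h6.trans h3')

/-- truth value of: the point `p` is covered by the answer `σ(h)` -/
def covered (σ h p : BName B) : B := ⨆ F, ⨆ O, mem (opair h F) σ ⊓ (mem O F ⊓ mem p O)

theorem extract {s : List Bool} {σ h : BName B} {b : B} (hb : b ≠ ⊥)
    (hσ : b ≤ (VB B).IsFunction σ)
    (hF : b ≤ ⨆ F, (mem (opair h F) σ ⊓ (VB B).IsFinite F) ⊓ (VB B).Sub F (cov D E s)) :
    ∃ b' ≤ b, b' ≠ ⊥ ∧ ∃ t, (∀ x, Seg t x → Seg s x) ∧
      ∀ x, Seg t x → b' ⊓ covered σ h (E.pt x) = ⊥ := by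
  obtain ⟨F, hF'⟩ := exists_inf_ne hb hF
  set b1 := b ⊓ ((mem (opair h F) σ ⊓ (VB B).IsFinite F) ⊓ (VB B).Sub F (cov D E s)) with hb1
  have h0 : b1 ≤ b := inf_le_left
  have h1 : b1 ≤ (mem (opair h F) σ ⊓ (VB B).IsFinite F) ⊓ (VB B).Sub F (cov D E s) := inf_le_right
  clear_value b1
  obtain ⟨b2, hb2, hb20, m, hm⟩ := finite_firsts D E hF' (bRight (bLeft h1)) (bRight h1)
  obtain ⟨t, ht, htb⟩ := exists_ag D s hb20 (max m s.length)
  refine ⟨b2 ⊓ ag D s t, inf_le_left.trans (hb2.trans h0), htb, t, fun x hx => ?_, fun x hx => ?_⟩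
  · exact seg_of_ag D htb inf_le_right (by rw [ht]; exact le_max_right _ _) hx
  · rw [← le_bot_iff]
    have h2 : (b2 ⊓ ag D s t) ⊓ covered σ h (E.pt x) ≤ ⨆ F', ⨆ O, mem (opair h F') σ ⊓ (mem O F' ⊓ mem (E.pt x) O) :=
      inf_le_right
    refine bElim h2 fun F' Δ h3 h4 => bElim h4 fun O Δ₁ h5 h6 => ?_
    have hΔ2 : Δ₁ ≤ b2 := (h5.trans h3).trans (inf_le_left.trans inf_le_left)
    have hΔt : Δ₁ ≤ ag D s t := (h5.trans h3).trans (inf_le_left.trans inf_le_right)
    have h7 : Δ₁ ≤ eq F' F := by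
      unfold SetModel.IsFunction at hσ
      refine bMP (bAll (bAll (bAll (bRight ((hΔ2.trans (hb2.trans h0)).trans hσ)) h) F') F) (le_inf ?_ ?_)
      · rw [app_eq]; exact bLeft h6
      · rw [app_eq]; exact (hΔ2.trans hb2).trans (bLeft (bLeft h1))
    have h8 : Δ₁ ≤ mem O F := bMemR h7 (bLeft (bRight h6))
    have h9 := hm O Δ₁ hΔ2 h8
    unfold firsts at h9
    refine bElim h9 fun p Δ₂ h10 h11 => ?_
    have h12 : Δ₂ ≤ mem (E.pt x) (E.cyl (p.1.1 ++ [p.1.2])) := bMemR (bRight h11) (h10.trans (bRight (bRight h6)))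
    rw [E.hcyl] at h12
    refine bElim h12 fun x' Δ₃ h13 h14 => ?_
    by_cases hxx : x = x'.1
    · refine ag_contra D (s := s) (t := t) (x := x) (u := p.1.1) (i := p.1.2) ((h13.trans h10).trans hΔt) hx
        (by rw [hxx]; exact x'.2) ?_ (h13.trans (bLeft h11))
      rw [ht]
      exact lt_of_lt_of_le p.2 (le_max_left _ _)
    · rw [E.hne _ _ hxx] at h14
      exact h14

end

end Pool.Agent.Helper84.MG
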