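import Mathlib

namespace Pool.Agent.Helper84.MG

open Cardinal

/-! ### Set theory with truth values in a complete Boolean algebra -/

/-- A structure for the language of set theory whose truth values lie in `Ω`. -/
structure SetModel (Ω : Type*) where
  /-- the objects -/
  S : Type*
  /-- truth value of `x ∈ y` -/
  mem : S → S → Ω
  /-- truth value of `x = y` -/
  eq : S → S → Ω

namespace SetModel

variable {Ω : Type*} [CompleteBooleanAlgebra Ω] (M : SetModel Ω)

/-- truth value of an equivalence -/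
def iffVal (a b : Ω) : Ω := (a ⇨ b) ⊓ (b ⇨ a)

/-- `a ⊆ b` -/
def Sub (a b : M.S) : Ω := ⨅ x, M.mem x a ⇨ M.mem x b

/-- `z = {x, y}` -/
def IsPairSet (z x y : M.S) : Ω := ⨅ w, iffVal (M.mem w z) (M.eq w x ⊔ M.eq w y)

/-- `p = (x, y) = {{x}, {x, y}}` -/
def IsOrdPair (p x y : M.S) : Ω :=
  ⨅ z, iffVal (M.mem z p) (M.IsPairSet z x x ⊔ M.IsPairSet z x y)

/-- `(x, y) ∈ f` -/
def App (f x y : M.S) : Ω := ⨆ p, M.IsOrdPair p x y ⊓ M.mem p f

/-- `f` is a function (a single-valued set of ordered pairs) -/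
def IsFunction (f : M.S) : Ω :=
  (⨅ p, M.mem p f ⇨ ⨆ x, ⨆ y, M.IsOrdPair p x y) ⊓
    ⨅ x, ⨅ y, ⨅ y', (M.App f x y ⊓ M.App f x y') ⇨ M.eq y y'

/-- `f` is a function with domain `D` -/
def IsFunOn (f D : M.S) : Ω :=
  M.IsFunction f ⊓ ⨅ x, iffVal (M.mem x D) (⨆ y, M.App f x y)

/-- `m = n ∪ {n}` -/
def IsSucc (m n : M.S) : Ω := ⨅ w, iffVal (M.mem w m) (M.mem w n ⊔ M.eq w n)

/-- `∅ ∈ w`, and `n ∪ {n} ∈ w` for all `n ∈ w` -/
def IsInductive (w : M.S) : Ω :=
  (⨆ z, (⨅ y, (M.mem y z)ᶜ) ⊓ M.mem z w) ⊓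
    ⨅ n, M.mem n w ⇨ ⨆ m, M.IsSucc m n ⊓ M.mem m w

/-- `w = ω`, the least inductive set -/
def IsOmega (w : M.S) : Ω := M.IsInductive w ⊓ ⨅ v, M.IsInductive v ⇨ M.Sub w v

/-- `F` is finite: it is covered by the values of a function defined on some `n ∈ ω` -/
def IsFinite (F : M.S) : Ω :=
  ⨆ w, ⨆ n, ⨆ g, ((M.IsOmega w ⊓ M.mem n w) ⊓ M.IsFunOn g n) ⊓
    ⨅ y, M.mem y F ⇨ ⨆ i, M.App g i y

/-- `O` is open in the topology on `X` generated by the base `τ` -/
def IsOpenSet (X τ O : M.S) : Ω :=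
  M.Sub O X ⊓ ⨅ x, M.mem x O ⇨ ⨆ T, (M.mem T τ ⊓ M.mem x T) ⊓ M.Sub T O

/-- `U` is an open cover of `X` -/
def IsOpenCover (X τ U : M.S) : Ω :=
  (⨅ O, M.mem O U ⇨ M.IsOpenSet X τ O) ⊓
    ⨅ x, M.mem x X ⇨ ⨆ O, M.mem O U ⊓ M.mem x O

/-- `h` is a function with domain `D` all of whose values are open covers of `X` -/
def IsCoverSeq (X τ h D : M.S) : Ω :=
  M.IsFunOn h D ⊓ ⨅ i, ⨅ U, M.App h i U ⇨ M.IsOpenCover X τ U

/-- `σ` is a strategy for player II in the Menger game: a function that assigns to every sequence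
`h = (U_0, …, U_n)` of open covers (a function with domain `m = n + 1`) a finite subset `F` of
`U_n` -/
def IsStrategyII (X τ σ : M.S) : Ω :=
  M.IsFunction σ ⊓ ⨅ w, ⨅ n, ⨅ m, ⨅ h,
    (((M.IsOmega w ⊓ M.mem n w) ⊓ M.IsSucc m n) ⊓ M.IsCoverSeq X τ h m) ⇨
      ⨆ F, (M.App σ h F ⊓ M.IsFinite F) ⊓ ⨆ U, M.App h n U ⊓ M.Sub F U

/-- `h` is the restriction of `f` to `m` -/
def IsRestriction (h f m : M.S) : Ω :=
  ⨅ p, iffVal (M.mem p h) (M.mem p f ⊓ ⨆ i, ⨆ y, M.mem i m ⊓ M.IsOrdPair p i y)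

/-- `σ` is a winning strategy for II: for every sequence `f : ω → {open covers}` of moves of I and
every `x ∈ X` there are `n` and a set `O ∈ σ (f ↾ (n + 1))` with `x ∈ O` -/
def IsWinningII (X τ σ : M.S) : Ω :=
  M.IsStrategyII X τ σ ⊓ ⨅ w, ⨅ f, (M.IsOmega w ⊓ M.IsCoverSeq X τ f w) ⇨
    ⨅ x, M.mem x X ⇨ ⨆ n, ⨆ m, ⨆ h, ⨆ F, ⨆ O,
      (((M.mem n w ⊓ M.IsSucc m n) ⊓ M.IsRestriction h f m) ⊓ M.App σ h F) ⊓
        (M.mem O F ⊓ M.mem x O)

/-- player II has a winning strategy in the Menger game on `X` with the topology generated by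
`τ` -/
def MengerII (X τ : M.S) : Ω := ⨆ σ, M.IsWinningII X τ σ

end SetModel

/-- the universe of sets -/
abbrev V : SetModel Prop := ⟨ZFSet.{0}, fun x y => x ∈ y, fun x y => x = y⟩

/-! ### Boolean-valued models -/

/-- `B`-valued names -/
inductive BName (B : Type 1) : Type 1
  | mk (ι : Type) (elt : ι → BName B) (val : ι → B) : BName B

namespace BName

variable {B : Type 1} [CompleteBooleanAlgebra B]

/-- truth value of `x = y` -/
def eq : BName B → BName B → B
  | mk ι a u, mk κ b v =>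
    (⨅ i : ι, u i ⇨ ⨆ j : κ, v j ⊓ (a i).eq (b j)) ⊓
      (⨅ j : κ, v j ⇨ ⨆ i : ι, u i ⊓ (a i).eq (b j))

/-- truth value of `x ∈ y` -/
def mem (x : BName B) : BName B → B
  | mk κ b v => ⨆ j : κ, v j ⊓ x.eq (b j)

/-- the canonical name of a pre-set of the ground model -/
def checkP : PSet.{0} → BName B
  | PSet.mk ι A => mk ι (fun i => checkP (A i)) (fun _ => ⊤)

/-- the canonical name `x̌` of a set `x` of the ground model -/
noncomputable def check (x : ZFSet.{0}) : BName B := checkP x.out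

end BName

/-- the Boolean-valued universe `V^B` -/
def VB (B : Type 1) [CompleteBooleanAlgebra B] : SetModel B := ⟨BName B, BName.mem, BName.eq⟩

/-! ### Forcing notions -/

/-- A forcing notion: a set `P` preordered by a set `R` of ordered pairs. -/
structure ForcingNotion where
  P : ZFSet.{0}
  R : ZFSet.{0}
  nonempty : ∃ p, p ∈ P
  subset : R ⊆ ZFSet.prod P P
  refl : ∀ p ∈ P, ZFSet.pair p p ∈ R
  trans : ∀ p q r, ZFSet.pair p q ∈ R → ZFSet.pair q r ∈ R → ZFSet.pair p r ∈ R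

/-- the type of conditions; `p ≤ q` means that `p` is stronger than `q` -/
def ForcingNotion.Cond (Q : ForcingNotion) : Type 1 := {p : ZFSet.{0} // p ∈ Q.P}

instance (Q : ForcingNotion) : Preorder Q.Cond where
  le p q := ZFSet.pair p.1 q.1 ∈ Q.R
  le_refl p := Q.refl p.1 p.2
  le_trans p q r := Q.trans p.1 q.1 r.1

/-- regular open sets of conditions: `p ∈ U` iff `U` is dense below `p` -/
structure RegOpen (C : Type 1) [Preorder C] where
  carrier : Set C
  regular : ∀ p, p ∈ carrier ↔ ∀ q ≤ p, ∃ r ≤ q, r ∈ carrier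

namespace RegOpen

variable {C : Type 1} [Preorder C]

theorem ext' {U W : RegOpen C} (h : U.carrier = W.carrier) : U = W := by
  cases U; cases W; cases h; rfl

theorem lower (U : RegOpen C) {p q : C} (h : q ≤ p) (hp : p ∈ U.carrier) : q ∈ U.carrier :=
  (U.regular q).2 fun r hr => (U.regular p).1 hp r (hr.trans h)

/-- the regular open hull `{p | U is dense below p}` of a set closed under stronger conditions -/
def hull (U : Set C) (hU : ∀ p q, q ≤ p → p ∈ U → q ∈ U) : RegOpen C where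
  carrier := {p | ∀ q ≤ p, ∃ r ≤ q, r ∈ U}
  regular p := by
    constructor
    · intro hp q hq
      exact ⟨q, le_rfl, fun r hr => hp r (hr.trans hq)⟩
    · intro hp q hq
      obtain ⟨r, hr, hr'⟩ := hp q hq
      obtain ⟨s, hs, hs'⟩ := hr' r le_rfl
      exact ⟨s, hs.trans hr, hs'⟩

instance : PartialOrder (RegOpen C) where
  le U W := U.carrier ⊆ W.carrier
  le_refl _ := subset_rfl
  le_trans _ _ _ h h' := h.trans h'
  le_antisymm _ _ h h' := ext' (Set.Subset.antisymm h h')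

theorem le_def {U W : RegOpen C} : U ≤ W ↔ ∀ p ∈ U.carrier, p ∈ W.carrier := Iff.rfl

instance : Max (RegOpen C) :=
  ⟨fun U W => hull (U.carrier ∪ W.carrier) fun _ _ h h' =>
    h'.elim (fun h' => Or.inl (U.lower h h')) (fun h' => Or.inr (W.lower h h'))⟩

instance : Min (RegOpen C) :=
  ⟨fun U W =>
    { carrier := U.carrier ∩ W.carrier
      regular := fun p =>
        ⟨fun h q hq => ⟨q, le_rfl, U.lower hq h.1, W.lower hq h.2⟩, fun h =>
          ⟨(U.regular p).2 fun q hq => (h q hq).imp fun _ hr => ⟨hr.1, hr.2.1⟩,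
            (W.regular p).2 fun q hq => (h q hq).imp fun _ hr => ⟨hr.1, hr.2.2⟩⟩⟩ }⟩

instance : SupSet (RegOpen C) :=
  ⟨fun A => hull {p | ∃ U ∈ A, p ∈ U.carrier} fun _ _ h h' => by
    obtain ⟨U, hU, hU'⟩ := h'
    exact ⟨U, hU, U.lower h hU'⟩⟩

instance : InfSet (RegOpen C) :=
  ⟨fun A =>
    { carrier := {p | ∀ U ∈ A, p ∈ U.carrier}
      regular := fun p =>
        ⟨fun h q hq => ⟨q, le_rfl, fun U hU => U.lower hq (h U hU)⟩, fun h U hU =>
          (U.regular p).2 fun q hq => (h q hq).imp fun _ hr => ⟨hr.1, hr.2 U hU⟩⟩ }⟩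

instance : Top (RegOpen C) :=
  ⟨{ carrier := Set.univ
     regular := fun _ => ⟨fun _ q _ => ⟨q, le_rfl, trivial⟩, fun _ => trivial⟩ }⟩

instance : Bot (RegOpen C) :=
  ⟨{ carrier := ∅
     regular := fun p => ⟨fun h => h.elim, fun h => by
       obtain ⟨r, _, hr⟩ := h p le_rfl
       exact hr.elim⟩ }⟩

instance : Compl (RegOpen C) :=
  ⟨fun U =>
    { carrier := {p | ∀ q ≤ p, q ∉ U.carrier}
      regular := fun p =>
        ⟨fun h q hq => ⟨q, le_rfl, fun r hr => h r (hr.trans hq)⟩, fun h q hq hqU => by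
          obtain ⟨r, hr, hr'⟩ := h q hq
          exact hr' r le_rfl (U.lower hr hqU)⟩ }⟩

/-- the complete Boolean algebra of regular open sets of conditions -/
instance : CompleteBooleanAlgebra (RegOpen C) where
  sup := (· ⊔ ·)
  inf := (· ⊓ ·)
  compl U := Uᶜ
  le_sup_left U W p hp := fun q hq => ⟨q, le_rfl, Or.inl (U.lower hq hp)⟩
  le_sup_right U W p hp := fun q hq => ⟨q, le_rfl, Or.inr (W.lower hq hp)⟩
  sup_le U W Z h h' p hp := (Z.regular p).2 fun q hq => by
    obtain ⟨r, hr, hr'⟩ := hp q hq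
    exact ⟨r, hr, hr'.elim (fun x => h x) (fun x => h' x)⟩
  inf_le_left _ _ _ hp := hp.1
  inf_le_right _ _ _ hp := hp.2
  le_inf _ _ _ h h' _ hp := ⟨h hp, h' hp⟩
  isLUB_sSup A := ⟨fun U hU p hp q hq => ⟨q, le_rfl, U, hU, U.lower hq hp⟩,
    fun W hW p hp => (W.regular p).2 fun q hq => by
      obtain ⟨r, hr, U, hU, hr'⟩ := hp q hq
      exact ⟨r, hr, hW hU hr'⟩⟩
  isGLB_sInf A := ⟨fun U hU p hp => hp U hU, fun W hW p hp U hU => hW hU hp⟩
  le_top _ _ _ := trivial
  bot_le _ _ hp := hp.elim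
  le_sup_inf U W Z p hp := fun q hq => by
    obtain ⟨r, hr, hr'⟩ := hp.1 q hq
    rcases hr' with h | h
    · exact ⟨r, hr, Or.inl h⟩
    · obtain ⟨s, hs, hs'⟩ := hp.2 r (hr.trans hq)
      rcases hs' with h' | h'
      · exact ⟨s, hs.trans hr, Or.inl h'⟩
      · exact ⟨s, hs.trans hr, Or.inr ⟨W.lower hs h, h'⟩⟩
  inf_compl_le_bot U p hp := (hp.2 p le_rfl hp.1).elim
  top_le_sup_compl U p _ := fun q _ => by
    by_cases h : ∃ r ≤ q, r ∈ U.carrier
    · obtain ⟨r, hr, hr'⟩ := h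
      exact ⟨r, hr, Or.inl hr'⟩
    · exact ⟨q, le_rfl, Or.inr fun r hr hrU => h ⟨r, hr, hrU⟩⟩

end RegOpen

/-! ### Strong properness for stationarily many models -/

/-- the relation symbol of the language of set theory -/
inductive SetRel : ℕ → Type
  | mem : SetRel 2

/-- the first-order language `{∈}` -/
def setLanguage : FirstOrder.Language := ⟨fun _ => Empty, SetRel⟩

/-- `H(θ)`: the sets of hereditary cardinality less than `θ` -/
def H (θ : Cardinal.{0}) : Type 1 := {x : ZFSet.{0} // x.Hereditarily fun y => y.card < θ}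

instance (θ : Cardinal.{0}) : setLanguage.Structure (H θ) where
  funMap := fun f => nomatch f
  RelMap := fun r x => match r with
    | SetRel.mem => (x 0).1 ∈ (x 1).1

/-- closed unbounded families of countable subsets -/
def IsClub {α : Type 1} (C : Set (Set α)) : Prop :=
  (∀ A ∈ C, A.Countable) ∧ (∀ A : Set α, A.Countable → ∃ A' ∈ C, A ⊆ A') ∧
    ∀ A : ℕ → Set α, Monotone A → (∀ n, A n ∈ C) → (⋃ n, A n) ∈ C

/-- stationary families of countable subsets -/
def IsStationary {α : Type 1} (S : Set (Set α)) : Prop := ∀ C, IsClub C → ∃ A ∈ S, A ∈ C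

namespace ForcingNotion

variable (Q : ForcingNotion) {θ : Cardinal.{0}}

/-- two conditions are compatible -/
def Compatible (p q : Q.Cond) : Prop := ∃ r, r ≤ p ∧ r ≤ q

/-- the condition `q` is strongly `(M, Q)`-generic -/
def StronglyGeneric (M : Set (H θ)) (q : Q.Cond) : Prop :=
  ∀ r ≤ q, ∃ r' : Q.Cond, (∃ a ∈ M, a.1 = r'.1) ∧
    ∀ s ≤ r', (∃ a ∈ M, a.1 = s.1) → Q.Compatible s r

/-- `M` is a countable elementary submodel of `H(θ)` containing `Q` such that every condition in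
`M` has a strongly `(M, Q)`-generic extension -/
def GoodModel (M : Set (H θ)) : Prop :=
  M.Countable ∧ (∃ N : setLanguage.ElementarySubstructure (H θ), (N : Set (H θ)) = M) ∧
    (∃ a ∈ M, a.1 = Q.P) ∧ (∃ a ∈ M, a.1 = Q.R) ∧
      ∀ p : Q.Cond, (∃ a ∈ M, a.1 = p.1) → ∃ q ≤ p, Q.StronglyGeneric M q

/-- `Q` is strongly proper for stationarily many models -/
def StronglyProperStat : Prop :=
  ∃ θ₀ : Cardinal.{0}, ∀ θ ≥ θ₀, θ.IsRegular → IsStationary {M : Set (H θ) | Q.GoodModel M}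

/-- truth value, in the complete Boolean algebra of `Q`, of the statement in the generic
extension II has a winning strategy in the Menger game on `X` with the topology generated by
`τ` -/
noncomputable def valMengerII (X τ : ZFSet.{0}) : RegOpen Q.Cond :=
  (VB (RegOpen Q.Cond)).MengerII (BName.check X) (BName.check τ)

end ForcingNotion

/-- `τ` is a topology on `X` -/
structure IsTopologyOn (X τ : ZFSet.{0}) : Prop where
  subset : ∀ U ∈ τ, U ⊆ X
  univ : X ∈ τ
  inter : ∀ U ∈ τ, ∀ W ∈ τ, U ∩ W ∈ τ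
  union : ∀ A, A ⊆ τ → ZFSet.sUnion A ∈ τ

end Pool.Agent.Helper84.MG
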