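import Pool.Agent.Helper84.MG.Cohen

namespace Pool.Agent.Helper84.MG

open BName Cardinal

/-! ### natural numbers as sets -/

noncomputable def natZ : ℕ → ZFSet.{0}
  | 0 => ∅
  | n + 1 => insert (natZ n) (natZ n)

theorem mem_natZ {x : ZFSet.{0}} {n : ℕ} : x ∈ natZ n ↔ ∃ i < n, x = natZ i := by
  induction n with
  | zero => simp [natZ]
  | succ n ih =>
    show x ∈ insert (natZ n) (natZ n) ↔ _
    rw [ZFSet.mem_insert_iff, ih]
    constructor
    · rintro (h | ⟨i, hi, h⟩)
      · exact ⟨n, Nat.lt_succ_self n, h⟩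
      · exact ⟨i, by omega, h⟩
    · rintro ⟨i, hi, h⟩
      rcases Nat.lt_succ_iff_lt_or_eq.1 hi with h1 | h1
      · exact Or.inr ⟨i, h1, h⟩
      · exact Or.inl (by rw [h, h1])

theorem natZ_inj {i j : ℕ} (h : natZ i = natZ j) : i = j := by
  by_contra hne
  rcases Nat.lt_or_gt_of_ne hne with h1 | h1
  · have : natZ i ∈ natZ j := mem_natZ.2 ⟨i, h1, rfl⟩
    rw [h] at this
    exact ZFSet.mem_irrefl _ this
  · have : natZ j ∈ natZ i := mem_natZ.2 ⟨j, h1, rfl⟩
    rw [h] at this
    exact ZFSet.mem_irrefl _ this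

/-- code of a finite string -/
noncomputable def cd (l : List Bool) : ZFSet.{0} := natZ (Encodable.encode l)

theorem cd_inj {l l' : List Bool} (h : cd l = cd l') : l = l' :=
  Encodable.encode_injective (natZ_inj h)

/-- Cohen forcing: finite binary strings ordered by end-extension -/
noncomputable def cohen : ForcingNotion where
  P := ZFSet.range cd
  R := ZFSet.range fun q : {q : List Bool × List Bool // q.2 <+: q.1} => ZFSet.pair (cd q.1.1) (cd q.1.2)
  nonempty := ⟨cd [], ZFSet.mem_range_self []⟩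
  subset := by
    intro z hz
    rw [ZFSet.mem_range] at hz
    obtain ⟨q, rfl⟩ := hz
    exact ZFSet.pair_mem_prod.2 ⟨ZFSet.mem_range_self _, ZFSet.mem_range_self _⟩
  refl := by
    intro p hp
    rw [ZFSet.mem_range] at hp
    obtain ⟨l, rfl⟩ := hp
    exact ZFSet.mem_range.2 ⟨⟨(l, l), List.prefix_rfl⟩, rfl⟩
  trans := by
    intro p q r h1 h2
    rw [ZFSet.mem_range] at h1 h2
    obtain ⟨⟨⟨a, b⟩, hab⟩, h1⟩ := h1
    obtain ⟨⟨⟨c, d⟩, hcd⟩, h2⟩ := h2
    obtain ⟨h3, h4⟩ := ZFSet.pair_inj.1 h1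
    obtain ⟨h5, h6⟩ := ZFSet.pair_inj.1 h2
    have h7 : b = c := cd_inj (h4.trans h5.symm)
    subst h7
    exact ZFSet.mem_range.2 ⟨⟨(a, d), List.IsPrefix.trans hcd hab⟩, by rw [← h3, ← h6]⟩

/-- the condition of a string -/
noncomputable def cond (l : List Bool) : cohen.Cond := ⟨cd l, ZFSet.mem_range_self l⟩

theorem exists_cond (p : cohen.Cond) : ∃ l, cond l = p := by
  obtain ⟨p, hp⟩ := p
  have hp' : p ∈ ZFSet.range cd := hp
  rw [ZFSet.mem_range] at hp'
  obtain ⟨l, rfl⟩ := hp'
  exact ⟨l, rfl⟩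

theorem cond_le {l l' : List Bool} : cond l ≤ cond l' ↔ l' <+: l := by
  show ZFSet.pair (cd l) (cd l') ∈ ZFSet.range _ ↔ _
  rw [ZFSet.mem_range]
  constructor
  · rintro ⟨⟨⟨a, b⟩, hab⟩, h1⟩
    obtain ⟨h3, h4⟩ := ZFSet.pair_inj.1 h1
    rw [← cd_inj h3, ← cd_inj h4]
    exact hab
  · intro h
    exact ⟨⟨(l, l'), h⟩, rfl⟩

theorem cond_inj {l l' : List Bool} (h : cond l = cond l') : l = l' := cd_inj (congrArg Subtype.val h)

/-- the cone below a condition -/
noncomputable def cone (l : List Bool) : RegOpen cohen.Cond where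
  carrier := {p | ∃ l', cond l' = p ∧ l <+: l'}
  regular p := by
    constructor
    · rintro ⟨l', rfl, hl⟩ q hq
      obtain ⟨m, rfl⟩ := exists_cond q
      exact ⟨cond m, le_rfl, m, rfl, hl.trans (cond_le.1 hq)⟩
    · intro h
      obtain ⟨m, rfl⟩ := exists_cond p
      refine ⟨m, rfl, ?_⟩
      -- every extension of `m` is compatible with `l`
      have key : ∀ m', m <+: m' → ∃ m'', m' <+: m'' ∧ l <+: m'' := by
        intro m' hm'
        obtain ⟨r, hr, l', rfl, hl'⟩ := h (cond m') (cond_le.2 hm')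
        exact ⟨l', cond_le.1 hr, hl'⟩
      by_contra hn
      obtain ⟨m1, h1, h2⟩ := key m List.prefix_rfl
      rcases List.prefix_or_prefix_of_prefix h1 h2 with h3 | h3
      · -- `m` is a proper prefix of `l`
        obtain ⟨u, rfl⟩ := h3
        cases u with
        | nil => exact hn (by simp)
        | cons i u =>
          obtain ⟨m2, h4, h5⟩ := key (m ++ [!i]) (List.prefix_append _ _)
          obtain ⟨v, rfl⟩ := h4
          rw [List.append_assoc, List.prefix_append_right_inj] at h5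
          simp at h5
      · exact hn h3

theorem mem_cone {l m : List Bool} : cond m ∈ (cone l).carrier ↔ l <+: m := by
  constructor
  · rintro ⟨l', h, hl⟩
    rwa [cond_inj h] at hl
  · intro h
    exact ⟨m, rfl, h⟩

noncomputable def cohenData : CohenData (RegOpen cohen.Cond) where
  e := cone
  ne s h := by
    have : cond s ∈ (cone s).carrier := mem_cone.2 List.prefix_rfl
    rw [h] at this
    exact this
  mono s t h := by
    intro p hp
    obtain ⟨m, rfl⟩ := exists_cond p
    exact mem_cone.2 (h.trans (mem_cone.1 hp))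
  disj s t h1 h2 := by
    rw [← le_bot_iff]
    intro p hp
    obtain ⟨m, rfl⟩ := exists_cond p
    exact ((List.prefix_or_prefix_of_prefix (mem_cone.1 hp.1) (mem_cone.1 hp.2)).elim h1 h2).elim
  dense b hb := by
    by_contra hn
    push Not at hn
    apply hb
    rw [← le_bot_iff]
    intro p hp
    obtain ⟨m, rfl⟩ := exists_cond p
    refine (hn m ?_).elim
    intro q hq
    obtain ⟨m', rfl⟩ := exists_cond q
    exact b.lower (cond_le.2 (mem_cone.1 hq)) hp

/-! ### strong properness -/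

section elementary
open FirstOrder FirstOrder.Language

theorem exists_witness {L : FirstOrder.Language} {M : Type*} [L.Structure M]
    (S : L.ElementarySubstructure M) {n : ℕ} (φ : L.BoundedFormula Empty (n+1)) (x : Fin n → S) (a : M)
    (h : φ.Realize default (Fin.snoc ((↑) ∘ x) a : _ → M)) :
    ∃ b : S, φ.Realize default (Fin.snoc ((↑) ∘ x) (b : M) : _ → M) := by
  have h1 : φ.ex.Realize (default : Empty → M) ((↑) ∘ x) := BoundedFormula.realize_ex.2 ⟨a, h⟩
  have h2 : φ.ex.Realize (default : Empty → S) x := by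
    rw [← ElementaryEmbedding.map_boundedFormula S.subtype]
    have : (S.subtype ∘ (default : Empty → S)) = (default : Empty → M) := Subsingleton.elim _ _
    rw [this]
    exact h1
  obtain ⟨b, hb⟩ := BoundedFormula.realize_ex.1 h2
  refine ⟨b, ?_⟩
  rw [← ElementaryEmbedding.map_boundedFormula S.subtype] at hb
  have h3 : (S.subtype ∘ (default : Empty → S)) = (default : Empty → M) := Subsingleton.elim _ _
  have h4 : (S.subtype ∘ (Fin.snoc x b : Fin (n+1) → S)) = (Fin.snoc ((↑) ∘ x) (b : M) : Fin (n+1) → M) := by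
    rw [Fin.comp_snoc]
    rfl
  rw [h3, h4] at hb
  exact hb

variable {θ : Cardinal.{0}}

/-- the formula `v_i ∈ v_j` -/
def memF {n : ℕ} (i j : Fin n) : setLanguage.BoundedFormula Empty n :=
  Relations.boundedFormula₂ (L := setLanguage) (SetRel.mem : setLanguage.Relations 2) (Term.var (Sum.inr i)) (Term.var (Sum.inr j))

theorem realize_memF {n : ℕ} (i j : Fin n) (x : Fin n → H θ) :
    (memF i j).Realize default x ↔ (x i).1 ∈ (x j).1 := by
  unfold memF
  rw [BoundedFormula.realize_rel₂]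
  rfl

/-- the formula `v_0` is empty -/
def emptyF : setLanguage.BoundedFormula Empty 1 := (∼(memF (1 : Fin 2) 0)).all

/-- the formula `v_1 = v_0 ∪ {v_0}` -/
def succF : setLanguage.BoundedFormula Empty 2 :=
  ((memF (2 : Fin 3) 1).iff (memF (2 : Fin 3) 0 ⊔ (Term.var (Sum.inr (2 : Fin 3)) =' Term.var (Sum.inr (0 : Fin 3))))).all

theorem realize_emptyF (x : Fin 1 → H θ) :
    emptyF.Realize default x ↔ ∀ y : H θ, y.1 ∉ (x 0).1 := by
  unfold emptyF
  rw [BoundedFormula.realize_all]
  refine forall_congr' fun y => ?_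
  rw [BoundedFormula.realize_not, realize_memF]
  rfl

theorem realize_succF (x : Fin 2 → H θ) :
    succF.Realize default x ↔ ∀ y : H θ, y.1 ∈ (x 1).1 ↔ (y.1 ∈ (x 0).1 ∨ y = x 0) := by
  unfold succF
  rw [BoundedFormula.realize_all]
  refine forall_congr' fun y => ?_
  rw [BoundedFormula.realize_iff, BoundedFormula.realize_sup, realize_memF, realize_memF,
    BoundedFormula.realize_bdEqual]
  rfl

theorem card_natZ_lt (n : ℕ) : (natZ n).card < ℵ₀ := by
  induction n with
  | zero => show (∅ : ZFSet.{0}).card < ℵ₀; rw [ZFSet.card_empty]; exact aleph0_pos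
  | succ n ih =>
    show (insert (natZ n) (natZ n)).card < ℵ₀
    exact lt_of_le_of_lt ZFSet.card_insert_le (add_lt_aleph0 ih one_lt_aleph0)

theorem natZ_H (hθ : ℵ₀ ≤ θ) (n : ℕ) : (natZ n).Hereditarily fun y => y.card < θ := by
  induction n using Nat.strong_induction_on with
  | _ n ih =>
    rw [ZFSet.hereditarily_iff]
    refine ⟨lt_of_lt_of_le (card_natZ_lt n) hθ, fun y hy => ?_⟩
    obtain ⟨i, hi, rfl⟩ := mem_natZ.1 hy
    exact ih i hi

/-- natural numbers as elements of `H(θ)` -/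
noncomputable def natH (hθ : ℵ₀ ≤ θ) (n : ℕ) : H θ := ⟨natZ n, natZ_H hθ n⟩

theorem natH_mem (hθ : ℵ₀ ≤ θ) (S : setLanguage.ElementarySubstructure (H θ)) (n : ℕ) :
    natH hθ n ∈ S := by
  induction n with
  | zero =>
    obtain ⟨b, hb⟩ := exists_witness S emptyF (fun i : Fin 0 => i.elim0) (natH hθ 0) (by
      rw [realize_emptyF]
      intro y hy
      exact ZFSet.notMem_empty _ hy)
    rw [realize_emptyF] at hb
    have h1 : (b : H θ) = natH hθ 0 := by
      apply Subtype.ext
      show (b : H θ).1 = ∅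
      rw [ZFSet.eq_empty]
      intro y hy
      exact hb ⟨y, (b : H θ).2.mem hy⟩ hy
    rw [← h1]
    exact b.2
  | succ n ih =>
    obtain ⟨b, hb⟩ := exists_witness S succF (fun _ : Fin 1 => ⟨natH hθ n, ih⟩) (natH hθ (n+1)) (by
      rw [realize_succF]
      intro y
      show y.1 ∈ insert (natZ n) (natZ n) ↔ (y.1 ∈ natZ n ∨ y = natH hθ n)
      rw [ZFSet.mem_insert_iff, or_comm]
      refine or_congr_right ?_
      exact ⟨fun h => Subtype.ext h, fun h => congrArg Subtype.val h⟩)
    rw [realize_succF] at hb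
    have hb' : ∀ y : H θ, y.1 ∈ (b : H θ).1 ↔ (y.1 ∈ natZ n ∨ y = natH hθ n) := hb
    have h1 : (b : H θ) = natH hθ (n+1) := by
      apply Subtype.ext
      ext y
      show y ∈ (b : H θ).1 ↔ y ∈ insert (natZ n) (natZ n)
      rw [ZFSet.mem_insert_iff]
      constructor
      · intro hy
        rcases (hb' ⟨y, (b : H θ).2.mem hy⟩).1 hy with h | h
        · exact Or.inr h
        · exact Or.inl (congrArg Subtype.val h)
      · rintro (h | h)
        · have := (hb' (natH hθ n)).2 (Or.inr rfl)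
          rw [h]
          exact this
        · exact (hb' ⟨y, (natZ_H hθ n).mem h⟩).2 (Or.inl h)
    rw [← h1]
    exact b.2

/-- the union of an increasing sequence of elementary submodels -/
theorem elementary_iUnion {L : FirstOrder.Language} [L.IsRelational] {M : Type*} [L.Structure M]
    (S : ℕ → L.ElementarySubstructure M) (hS : ∀ n, (S n : Set M) ⊆ S (n+1)) :
    ∃ N : L.ElementarySubstructure M, (N : Set M) = ⋃ n, (S n : Set M) := by
  have hmono : Monotone fun n => (S n : Set M) := monotone_nat_of_le_succ hS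
  let N : L.Substructure M :=
    { carrier := ⋃ n, (S n : Set M)
      fun_mem := fun f => (IsEmpty.false f).elim }
  refine ⟨N.toElementarySubstructure ?_, rfl⟩
  intro n φ x a h
  have h1 : ∀ i, ∃ k, (x i : M) ∈ S k := fun i => Set.mem_iUnion.1 (x i).2
  choose k hk using h1
  let K := Finset.univ.sup k
  have h2 : ∀ i, (x i : M) ∈ S K := fun i => hmono (Finset.le_sup (Finset.mem_univ i)) (hk i)
  obtain ⟨b, hb⟩ := exists_witness (S K) φ (fun i => ⟨x i, h2 i⟩) a h
  exact ⟨⟨b, Set.mem_iUnion.2 ⟨K, b.2⟩⟩, hb⟩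

instance : setLanguage.IsRelational := fun _ => inferInstanceAs (IsEmpty Empty)

theorem card_setLanguage : setLanguage.card ≤ ℵ₀ := by
  rw [FirstOrder.Language.card]
  have : Countable setLanguage.Symbols := by
    unfold FirstOrder.Language.Symbols
    have h1 : Countable (Σ l, setLanguage.Functions l) := by
      have : IsEmpty (Σ l, setLanguage.Functions l) := ⟨fun x => (x.2 : Empty).elim⟩
      infer_instance
    have h2 : Countable (Σ l, setLanguage.Relations l) := by
      have : ∀ l, Countable (setLanguage.Relations l) := by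
        intro l
        refine Function.Injective.countable (f := fun _ : SetRel l => ()) ?_
        intro a b _
        cases a; cases b; rfl
      infer_instance
    infer_instance
  exact Cardinal.mk_le_aleph0

theorem exists_elementary (hθ : ℵ₀ ≤ θ) (A : Set (H θ)) (hA : A.Countable) :
    ∃ S : setLanguage.ElementarySubstructure (H θ), A ⊆ S ∧ (S : Set (H θ)).Countable := by
  have hinf : ℵ₀ ≤ #(H θ) := by
    rw [Cardinal.aleph0_le_mk_iff]
    exact Infinite.of_injective (natH hθ) (fun i j h => natZ_inj (congrArg Subtype.val h))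
  obtain ⟨S, hS1, hS2⟩ := exists_elementarySubstructure_card_eq setLanguage A ℵ₀ le_rfl
    (by simpa using hA.le_aleph0) (by simpa using card_setLanguage) (by simpa using hinf)
  refine ⟨S, hS1, ?_⟩
  rw [← Cardinal.le_aleph0_iff_set_countable]
  have h3 : Cardinal.lift.{0} #(S : Set (H θ)) = Cardinal.lift.{1} ℵ₀ := hS2
  simp at h3
  exact h3.le

theorem club_meets (hθ : ℵ₀ ≤ θ) (C : Set (Set (H θ))) (hC : IsClub C) (A : Set (H θ)) (hA : A.Countable) :
    ∃ M ∈ C, A ⊆ M ∧ ∃ N : setLanguage.ElementarySubstructure (H θ), (N : Set (H θ)) = M := by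
  obtain ⟨hC1, hC2, hC3⟩ := hC
  choose c hc1 hc2 using hC2
  choose s hs1 hs2 using fun (A : Set (H θ)) (hA : A.Countable) => exists_elementary hθ A hA
  let step : {A : Set (H θ) // A.Countable} → {A : Set (H θ) // A.Countable} := fun A =>
    ⟨c (s A.1 A.2) (hs2 A.1 A.2), hC1 _ (hc1 _ _)⟩
  let Z : ℕ → {A : Set (H θ) // A.Countable} := fun n => step^[n] ⟨A, hA⟩
  have hZ : ∀ n, Z (n+1) = step (Z n) := fun n => Function.iterate_succ_apply' _ _ _
  have hsub1 : ∀ n, (Z n).1 ⊆ (s (Z n).1 (Z n).2 : Set (H θ)) := fun n => hs1 _ _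
  have hsub2 : ∀ n, (s (Z n).1 (Z n).2 : Set (H θ)) ⊆ (Z (n+1)).1 := by
    intro n
    rw [hZ]
    exact hc2 _ _
  have hinC : ∀ n, (Z (n+1)).1 ∈ C := by
    intro n
    rw [hZ]
    exact hc1 _ _
  have hmono : Monotone fun n => (Z (n+1)).1 :=
    monotone_nat_of_le_succ fun n => (hsub1 (n+1)).trans (hsub2 (n+1))
  refine ⟨⋃ n, (Z (n+1)).1, hC3 _ hmono hinC, ?_, ?_⟩
  · refine subset_trans ?_ (Set.subset_iUnion _ 0)
    exact (hsub1 0).trans (hsub2 0)
  · obtain ⟨N, hN⟩ := elementary_iUnion (fun n => s (Z n).1 (Z n).2)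
      (fun n => (hsub2 n).trans (hsub1 (n+1)))
    refine ⟨N, ?_⟩
    rw [hN]
    apply Set.Subset.antisymm
    · exact Set.iUnion_subset fun n => (hsub2 n).trans (Set.subset_iUnion (fun n => (Z (n+1)).1) n)
    · exact Set.iUnion_subset fun n => (hsub1 (n+1)).trans
        (Set.subset_iUnion (fun n => (s (Z n).1 (Z n).2 : Set (H θ))) (n+1))

end elementary

theorem card_range_le {α : Type} [Countable α] (f : α → ZFSet.{0}) : (ZFSet.range f).card ≤ ℵ₀ := by
  have h := ZFSet.lift_card_range_le (f := f)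
  simp at h
  exact h.trans Cardinal.mk_le_aleph0

theorem pair_H {θ : Cardinal.{0}} (hθ : ℵ₀ ≤ θ) {x y : ZFSet.{0}}
    (hx : x.Hereditarily fun y => y.card < θ) (hy : y.Hereditarily fun y => y.card < θ) :
    (ZFSet.pair x y).Hereditarily fun y => y.card < θ := by
  have hpair : ∀ a b : ZFSet.{0}, a.Hereditarily (fun y => y.card < θ) → b.Hereditarily (fun y => y.card < θ) →
      ({a, b} : ZFSet.{0}).Hereditarily fun y => y.card < θ := by
    intro a b ha hb
    rw [ZFSet.hereditarily_iff]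
    refine ⟨?_, fun z hz => ?_⟩
    · refine lt_of_lt_of_le ?_ hθ
      refine lt_of_le_of_lt ZFSet.card_insert_le ?_
      rw [ZFSet.card_singleton]
      exact add_lt_aleph0 one_lt_aleph0 one_lt_aleph0
    · rcases ZFSet.mem_pair.1 hz with rfl | rfl
      · exact ha
      · exact hb
  have hs : ∀ a : ZFSet.{0}, a.Hereditarily (fun y => y.card < θ) →
      ({a} : ZFSet.{0}).Hereditarily fun y => y.card < θ := by
    intro a ha
    have := hpair a a ha ha
    rwa [ZFSet.pair_eq_singleton] at this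
  exact hpair _ _ (hs x hx) (hpair x y hx hy)

theorem cohen_stronglyProper : cohen.StronglyProperStat := by
  refine ⟨ℵ₁, fun θ hθ _ => ?_⟩
  have hθ0 : ℵ₀ < θ := lt_of_lt_of_le aleph0_lt_aleph_one hθ
  intro C hC
  have hP : cohen.P.Hereditarily fun y => y.card < θ := by
    rw [ZFSet.hereditarily_iff]
    refine ⟨lt_of_le_of_lt (card_range_le _) hθ0, fun y hy => ?_⟩
    obtain ⟨l, rfl⟩ := ZFSet.mem_range.1 hy
    exact natZ_H hθ0.le _
  have hR : cohen.R.Hereditarily fun y => y.card < θ := by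
    rw [ZFSet.hereditarily_iff]
    refine ⟨lt_of_le_of_lt (card_range_le _) hθ0, fun y hy => ?_⟩
    obtain ⟨q, rfl⟩ := ZFSet.mem_range.1 hy
    exact pair_H hθ0.le (natZ_H hθ0.le _) (natZ_H hθ0.le _)
  obtain ⟨M, hMC, hAM, N, hN⟩ := club_meets hθ0.le C hC {⟨cohen.P, hP⟩, ⟨cohen.R, hR⟩}
    (Set.toFinite _).countable
  have hall : ∀ p : cohen.Cond, ∃ a ∈ M, a.1 = p.1 := by
    intro p
    obtain ⟨l, rfl⟩ := exists_cond p
    refine ⟨natH hθ0.le (Encodable.encode l), ?_, rfl⟩
    rw [← hN]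
    exact natH_mem hθ0.le N _
  refine ⟨M, ⟨hC.1 M hMC, ⟨N, hN⟩, ⟨_, hAM (Set.mem_insert _ _), rfl⟩,
    ⟨_, hAM (Set.mem_insert_of_mem _ rfl), rfl⟩, fun p _ => ⟨p, le_rfl, ?_⟩⟩, hMC⟩
  intro r _
  exact ⟨r, hall r, fun s hs _ => ⟨s, le_rfl, hs⟩⟩

end Pool.Agent.Helper84.MG
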