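import Pool.Agent.Helper84.MG.Cohen

namespace Pool.Agent.Helper84.MG

open BName

section
variable {B : Type 1} [CompleteBooleanAlgebra B]

theorem isOpen_seg (t : List Bool) : IsOpen {x : ℕ → Bool | Seg t x} := by
  have : {x : ℕ → Bool | Seg t x} = ⋂ j : Fin t.length, {x | x j = t[j]} := by
    ext x
    simp only [Set.mem_ofPred_eq, Set.mem_iInter]
    constructor
    · intro h j
      exact h j _ (List.getElem?_eq_getElem j.2)
    · intro h j i hj
      have hj' : j < t.length := by rw [List.getElem?_eq_some_iff] at hj; exact hj.1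
      rw [List.getElem?_eq_getElem hj'] at hj
      rw [h ⟨j, hj'⟩]
      exact Option.some.inj hj
  rw [this]
  refine isOpen_iInter_of_finite fun j => ?_
  exact (isOpen_discrete ({t[j]} : Set Bool)).preimage (continuous_apply (A := fun _ : ℕ => Bool) (j : ℕ))

theorem exists_cyl {O : Set (ℕ → Bool)} (hO : IsOpen O) {x : ℕ → Bool} (hx : x ∈ O) :
    ∃ n, ∀ y, Seg (res x n) y → y ∈ O := by
  obtain ⟨v, ⟨y, n, rfl⟩, hxv, hv⟩ :=
    (PiNat.isTopologicalBasis_cylinders (fun _ : ℕ => Bool)).exists_subset_of_mem_open hx hO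
  refine ⟨n, fun z hz => hv ?_⟩
  rw [PiNat.mem_cylinder_iff] at hxv ⊢
  intro i hi
  rw [hz i (x i) (res_getElem? x n i hi), hxv i hi]

theorem baire {e : List Bool → B} (dense : ∀ b : B, b ≠ ⊥ → ∃ s, e s ≤ b) (ne : ∀ s, e s ≠ ⊥)
    (b0 : B) (C : List ℕ → (ℕ → Bool) → B)
    (h : ∀ (π : List ℕ) (u : List Bool) (b : B), b ≤ b0 → b ≠ ⊥ → ∃ b' ≤ b, b' ≠ ⊥ ∧
      ∃ t, (∀ x, Seg t x → Seg u x) ∧ ∃ k, ∀ x, Seg t x → b' ⊓ C (k :: π) x = ⊥) :
    ∃ x, ∀ π, b0 ≤ ⨆ k, (C (k :: π) x)ᶜ := by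
  let G : List Bool × List ℕ → Set (ℕ → Bool) := fun q =>
    {x | e q.1 ≤ b0 → ∃ b' ≤ e q.1, b' ≠ ⊥ ∧ ∃ t k, Seg t x ∧ ∀ x', Seg t x' → b' ⊓ C (k :: q.2) x' = ⊥}
  have hopen : ∀ q, IsOpen (G q) := by
    intro q
    by_cases hq : e q.1 ≤ b0
    · have : G q = ⋃ (b' : B) (_ : b' ≤ e q.1) (_ : b' ≠ ⊥) (t : List Bool) (k : ℕ)
          (_ : ∀ x', Seg t x' → b' ⊓ C (k :: q.2) x' = ⊥), {x | Seg t x} := by
        ext x
        simp only [Set.mem_iUnion, Set.mem_ofPred_eq, exists_prop, G]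
        constructor
        · intro hx
          obtain ⟨b', h1, h2, t, k, h3, h4⟩ := hx hq
          exact ⟨b', h1, h2, t, k, h4, h3⟩
        · rintro ⟨b', h1, h2, t, k, h4, h3⟩ _
          exact ⟨b', h1, h2, t, k, h3, h4⟩
      rw [this]
      exact isOpen_iUnion fun _ => isOpen_iUnion fun _ => isOpen_iUnion fun _ => isOpen_iUnion fun t =>
        isOpen_iUnion fun _ => isOpen_iUnion fun _ => isOpen_seg t
    · have : G q = Set.univ := by
        ext x
        simp [G, hq]
      rw [this]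
      exact isOpen_univ
  have hdense : ∀ q, Dense (G q) := by
    intro q
    rw [dense_iff_inter_open]
    rintro O hO ⟨x, hx⟩
    by_cases hq : e q.1 ≤ b0
    · obtain ⟨n, hn⟩ := exists_cyl hO hx
      obtain ⟨b', h1, h2, t, h3, k, h4⟩ := h q.2 (res x n) (e q.1) hq (ne _)
      -- a point of `[t]`
      let y : ℕ → Bool := fun j => (t[j]?).getD false
      have hy : Seg t y := by
        intro j i hj
        show (t[j]?).getD false = i
        rw [hj]; rfl
      exact ⟨y, hn y (h3 y hy), fun _ => ⟨b', h1, h2, t, k, hy, h4⟩⟩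
    · exact ⟨x, hx, fun hq' => absurd hq' hq⟩
  have hne : (⋂ q, G q).Nonempty := (dense_iInter_of_isOpen hopen hdense).nonempty
  obtain ⟨x, hx⟩ := hne
  rw [Set.mem_iInter] at hx
  refine ⟨x, fun π => ?_⟩
  by_contra hcon
  have hb : b0 ⊓ (⨆ k, (C (k :: π) x)ᶜ)ᶜ ≠ ⊥ := by
    intro h0
    apply hcon
    rw [← disjoint_iff, disjoint_compl_right_iff] at h0
    exact h0
  obtain ⟨r, hr⟩ := dense _ hb
  obtain ⟨b', h1, h2, t, k, h3, h4⟩ := hx (r, π) (hr.trans inf_le_left)
  apply h2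
  rw [← le_bot_iff]
  have h5 : b' ≤ (C (k :: π) x)ᶜ := by
    rw [le_compl_iff_disjoint_right, disjoint_iff]
    exact h4 x h3
  exact bAbs ((h1.trans hr).trans inf_le_right) (bEx k h5)

variable (D : CohenData B) {X τ : BName B} (E : SpaceData X τ) (st : ℕ → List Bool)

/-- the history of the play in which I has played the covers with numbers `π` (most recent
first) -/
def hist (π : List ℕ) : BName B :=
  BName.mk {q : ℕ × List ℕ // q.1 :: q.2 <:+ π}
    (fun q => opair (nat q.1.2.length) (cov D E (st q.1.1))) (fun _ => ⊤)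

theorem mem_hist (p : BName B) (π : List ℕ) : mem p (hist D E st π) =
    ⨆ q : {q : ℕ × List ℕ // q.1 :: q.2 <:+ π}, eq p (opair (nat q.1.2.length) (cov D E (st q.1.1))) := by
  unfold hist
  rw [mem_mk]
  simp

theorem suffix_unique {α : Type*} {l l₁ l₂ : List α} (h₁ : l₁ <:+ l) (h₂ : l₂ <:+ l) (h : l₁.length = l₂.length) :
    l₁ = l₂ := List.IsSuffix.eq_of_length (List.suffix_of_suffix_length_le h₁ h₂ h.le) h

theorem exists_suffix (π : List ℕ) {i : ℕ} (hi : i < π.length) :
    ∃ q : ℕ × List ℕ, q.1 :: q.2 <:+ π ∧ q.2.length = i := by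
  have h1 : (π.drop (π.length - (i+1))).length = i + 1 := by
    rw [List.length_drop]; omega
  cases hd : π.drop (π.length - (i+1)) with
  | nil => rw [hd] at h1; simp at h1
  | cons k ρ =>
    rw [hd] at h1
    refine ⟨(k, ρ), ?_, by simpa using h1⟩
    show k :: ρ <:+ π
    rw [← hd]
    exact List.drop_suffix _ _

theorem bHistMem {Γ : B} {i : ℕ} {y : BName B} {π : List ℕ}
    (h : Γ ≤ mem (opair (nat i) y) (hist D E st π)) :
    Γ ≤ ⨆ q : {q : ℕ × List ℕ // q.1 :: q.2 <:+ π ∧ q.2.length = i}, eq y (cov D E (st q.1.1)) := by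
  rw [mem_hist] at h
  refine bElim h fun q Δ _ h2 => ?_
  rcases bNatEq (bOpairFst h2) with h3 | h3
  · rw [h3]; exact bot_le
  · exact bEx ⟨q.1, q.2, h3.symm⟩ (bOpairSnd h2)

theorem hist_coverSeq (π : List ℕ) {Γ : B} :
    Γ ≤ (VB B).IsCoverSeq X τ (hist D E st π) (nat π.length) := by
  unfold SetModel.IsCoverSeq SetModel.IsFunOn SetModel.IsFunction
  refine le_inf (le_inf (le_inf ?_ ?_) ?_) ?_
  · refine le_iInf fun p => bImp fun Δ _ hp => ?_
    have hp' : Δ ≤ mem p (hist D E st π) := hp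
    rw [mem_hist] at hp'
    refine bElim hp' fun q Δ₁ _ h2 => ?_
    refine bEx (nat q.1.2.length) (bEx (cov D E (st q.1.1)) ?_)
    rw [isOrdPair_eq]
    exact h2
  · refine le_iInf fun x => le_iInf fun y => le_iInf fun y' => bImp fun Δ _ hp => ?_
    rw [app_eq, app_eq] at hp
    have h1 := bLeft hp
    rw [mem_hist] at h1
    refine bElim h1 fun q Δ₁ h2 h3 => ?_
    have h4 : Δ₁ ≤ mem (opair (nat q.1.2.length) y') (hist D E st π) :=
      bMemL (bOpairCongr (bOpairFst h3) (bRefl _)) (h2.trans (bRight hp))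
    refine bElim (bHistMem D E st h4) fun q' Δ₂ h5 h6 => ?_
    have h7 : q'.1.1 :: q'.1.2 = q.1.1 :: q.1.2 :=
      suffix_unique q'.2.1 q.2 (by simp [q'.2.2])
    have h8 : q'.1.1 = q.1.1 := (List.cons.inj h7).1
    rw [h8] at h6
    exact bTrans (h5.trans (bOpairSnd h3)) (bSymm h6)
  · refine le_iInf fun x => bIff (fun Δ _ hx => ?_) (fun Δ _ hx => ?_)
    · have hx' : Δ ≤ mem x (nat π.length) := hx
      rw [mem_nat] at hx'
      refine bElim hx' fun i Δ₁ _ h2 => ?_
      obtain ⟨q, hq1, hq2⟩ := exists_suffix π i.2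
      refine bEx (cov D E (st q.1)) ?_
      rw [app_eq, mem_hist]
      refine bEx ⟨q, hq1⟩ (bOpairCongr ?_ (bRefl _))
      rw [hq2]
      exact h2
    · refine bElim hx fun y Δ₁ _ h2 => ?_
      rw [app_eq, mem_hist] at h2
      refine bElim h2 fun q Δ₂ _ h4 => ?_
      refine bMemL (bSymm (bOpairFst h4)) (bNatMem ?_)
      have := q.2.length_le
      simp at this
      omega
  · refine le_iInf fun i => le_iInf fun U => bImp fun Δ _ hp => ?_
    rw [app_eq, mem_hist] at hp
    refine bElim hp fun q Δ₁ _ h2 => ?_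
    exact bCoverCongr (bOpairSnd h2) (cov_cover D E _)

theorem bHistLast {Γ : B} {k : ℕ} {π : List ℕ} {U : BName B}
    (h : Γ ≤ mem (opair (nat π.length) U) (hist D E st (k :: π))) : Γ ≤ eq U (cov D E (st k)) := by
  refine bElim (bHistMem D E st h) fun q Δ _ h2 => ?_
  have h3 : q.1.1 :: q.1.2 = k :: π := q.2.1.eq_of_length (by simp [q.2.2])
  have h4 : q.1.1 = k := (List.cons.inj h3).1
  rw [h4] at h2
  exact h2

/-- the truth values of the positions of the play that defeats the strategy -/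
noncomputable def chain (C : List ℕ → B) : List ℕ → B
  | [] => ⊤
  | k :: π => chain C π ⊓ disjointed (fun j => (C (j :: π))ᶜ) k

theorem chain_suffix (C : List ℕ → B) {π ρ : List ℕ} (h : ρ <:+ π) : chain C π ≤ chain C ρ := by
  induction π with
  | nil => rw [List.suffix_nil] at h; rw [h]
  | cons k π ih =>
    rw [List.suffix_cons_iff] at h
    rcases h with h | h
    · rw [h]
    · exact inf_le_left.trans (ih h)

theorem chain_disj (C : List ℕ → B) {π ρ : List ℕ} (hl : π.length = ρ.length) (hne : π ≠ ρ) :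
    chain C π ⊓ chain C ρ = ⊥ := by
  induction π generalizing ρ with
  | nil =>
    exact absurd (List.length_eq_zero_iff.1 hl.symm).symm hne
  | cons k π ih =>
    cases ρ with
    | nil => simp at hl
    | cons k' ρ =>
      rw [← le_bot_iff]
      by_cases hpr : π = ρ
      · subst hpr
        have hk : k ≠ k' := fun hk => hne (by rw [hk])
        have h1 := disjoint_disjointed (fun j => (C (j :: π))ᶜ) hk
        have h2 : disjointed (fun j => (C (j :: π))ᶜ) k ⊓ disjointed (fun j => (C (j :: π))ᶜ) k' = ⊥ :=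
          disjoint_iff.1 h1
        rw [← h2]
        exact le_inf (inf_le_left.trans inf_le_right) (inf_le_right.trans inf_le_right)
      · have h1 := ih (ρ := ρ) (by simpa using hl) hpr
        rw [← h1]
        exact le_inf (inf_le_left.trans inf_le_left) (inf_le_right.trans inf_le_left)

theorem chain_sup (C : List ℕ → B) {b0 : B} (h : ∀ π, b0 ≤ ⨆ k, (C (k :: π))ᶜ) (n : ℕ) :
    b0 ≤ ⨆ π : {π : List ℕ // π.length = n}, chain C π.1 := by
  induction n with
  | zero => exact bEx ⟨[], rfl⟩ le_top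
  | succ n ih =>
    refine bElim ih fun π Δ hΔ h2 => ?_
    have h3 : Δ ≤ ⨆ k, disjointed (fun j => (C (j :: π.1))ᶜ) k := by
      rw [iSup_disjointed]
      exact hΔ.trans (h π.1)
    refine bElim h3 fun k Δ₁ h4 h5 => ?_
    exact bEx ⟨k :: π.1, by simp [π.2]⟩ (le_inf (h4.trans h2) h5)

theorem chain_le (C : List ℕ → B) (k : ℕ) (π : List ℕ) : chain C (k :: π) ≤ (C (k :: π))ᶜ :=
  inf_le_right.trans (disjointed_le (fun j => (C (j :: π))ᶜ) k)

/-- the name of the play that defeats the strategy -/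
noncomputable def play (C : List ℕ → B) : BName B :=
  BName.mk (ℕ × List ℕ) (fun q => opair (nat q.2.length) (cov D E (st q.1)))
    (fun q => chain C (q.1 :: q.2))

theorem mem_play (C : List ℕ → B) (p : BName B) : mem p (play D E st C) =
    ⨆ q : ℕ × List ℕ, chain C (q.1 :: q.2) ⊓ eq p (opair (nat q.2.length) (cov D E (st q.1))) := rfl

theorem play_coverSeq (C : List ℕ → B) {b0 : B} (h : ∀ π, b0 ≤ ⨆ k, (C (k :: π))ᶜ) :
    b0 ≤ (VB B).IsCoverSeq X τ (play D E st C) omg := by
  unfold SetModel.IsCoverSeq SetModel.IsFunOn SetModel.IsFunction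
  refine le_inf (le_inf (le_inf ?_ ?_) ?_) ?_
  · refine le_iInf fun p => bImp fun Δ _ hp => ?_
    have hp' : Δ ≤ mem p (play D E st C) := hp
    rw [mem_play] at hp'
    refine bElim hp' fun q Δ₁ _ h2 => ?_
    refine bEx (nat q.2.length) (bEx (cov D E (st q.1)) ?_)
    rw [isOrdPair_eq]
    exact bRight h2
  · refine le_iInf fun x => le_iInf fun y => le_iInf fun y' => bImp fun Δ _ hp => ?_
    rw [app_eq, app_eq, mem_play, mem_play] at hp
    refine bElim (bLeft hp) fun q Δ₁ h1 h2 => bElim (h1.trans (bRight hp)) fun q' Δ₂ h3 h4 => ?_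
    have h5 : Δ₂ ≤ eq (nat q.2.length) (nat q'.2.length) :=
      bTrans (bSymm (bOpairFst (h3.trans (bRight h2)))) (bOpairFst (bRight h4))
    rcases bNatEq h5 with h6 | h6
    · rw [h6]; exact bot_le
    · by_cases h7 : q.1 :: q.2 = q'.1 :: q'.2
      · have h8 : q.1 = q'.1 := (List.cons.inj h7).1
        have h9 : Δ₂ ≤ eq y' (cov D E (st q'.1)) := bOpairSnd (bRight h4)
        rw [← h8] at h9
        exact bTrans (h3.trans (bOpairSnd (bRight h2))) (bSymm h9)
      · have h8 := chain_disj C (π := q.1 :: q.2) (ρ := q'.1 :: q'.2) (by simp [h6]) h7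
        have h9 : Δ₂ ≤ ⊥ := by
          rw [← h8]
          exact le_inf (h3.trans (bLeft h2)) (bLeft h4)
        exact h9.trans bot_le
  · refine le_iInf fun x => bIff (fun Δ hΔ hx => ?_) (fun Δ _ hx => ?_)
    · have hx' : Δ ≤ mem x omg := hx
      rw [mem_omg] at hx'
      refine bElim hx' fun i Δ₁ h1 h2 => ?_
      refine bElim ((h1.trans hΔ).trans (chain_sup C h (i+1))) fun π Δ₂ h3 h4 => ?_
      obtain ⟨π, hπ⟩ := π
      cases π with
      | nil => simp at hπ
      | cons k π =>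
        refine bEx (cov D E (st k)) ?_
        rw [app_eq, mem_play]
        refine bEx (k, π) (le_inf h4 (bOpairCongr ?_ (bRefl _)))
        have h5 : π.length = i := by simpa using hπ
        show Δ₂ ≤ eq x (nat π.length)
        rw [h5]
        exact h3.trans h2
    · refine bElim hx fun y Δ₁ _ h2 => ?_
      rw [app_eq, mem_play] at h2
      refine bElim h2 fun q Δ₂ _ h4 => ?_
      show _ ≤ mem x omg
      rw [mem_omg]
      exact bEx q.2.length (bOpairFst (bRight h4))
  · refine le_iInf fun i => le_iInf fun U => bImp fun Δ _ hp => ?_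
    rw [app_eq, mem_play] at hp
    refine bElim hp fun q Δ₁ _ h2 => ?_
    exact bCoverCongr (bOpairSnd (bRight h2)) (cov_cover D E _)

theorem restriction_eq (C : List ℕ → B) {π : List ℕ} {Γ : B} {h m : BName B} (hΓ : Γ ≤ chain C π)
    (hm : Γ ≤ eq m (nat π.length)) (hr : Γ ≤ (VB B).IsRestriction h (play D E st C) m) :
    Γ ≤ eq h (hist D E st π) := by
  unfold SetModel.IsRestriction at hr
  refine bExt (fun p Δ hΔ hp => ?_) (fun p Δ hΔ hp => ?_)
  · have h1 := bIff_mp (bAll (hΔ.trans hr) p) hp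
    have h2 : Δ ≤ mem p (play D E st C) := bLeft h1
    rw [mem_play] at h2
    refine bElim h2 fun q Δ₁ h3 h4 => ?_
    refine bElim (h3.trans (bRight h1)) fun i Δ₂ h5 h6 => bElim h6 fun y Δ₃ h7 h8 => ?_
    rw [isOrdPair_eq] at h8
    have h9 : Δ₃ ≤ eq i (nat q.2.length) :=
      bOpairFst (bTrans (bSymm (bRight h8)) ((h7.trans h5).trans (bRight h4)))
    have hΔ3 : Δ₃ ≤ Γ := (h7.trans (h5.trans h3)).trans hΔ
    have h10 : Δ₃ ≤ mem (nat q.2.length) (nat π.length) :=
      bMemL h9 (bMemR (hΔ3.trans hm) (bLeft h8))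
    rw [mem_nat] at h10
    refine bElim h10 fun j Δ₄ h11 h12 => ?_
    rcases bNatEq h12 with h13 | h13
    · rw [h13]; exact bot_le
    · obtain ⟨q', hq1, hq2⟩ := exists_suffix π j.2
      by_cases h14 : q'.1 :: q'.2 = q.1 :: q.2
      · rw [mem_hist]
        refine bEx ⟨q, by rw [← h14]; exact hq1⟩ ?_
        exact (h11.trans (h7.trans h5)).trans (bRight h4)
      · have h15 := chain_disj C (π := q'.1 :: q'.2) (ρ := q.1 :: q.2) (by simp [hq2, h13]) h14
        have h16 : Δ₄ ≤ ⊥ := by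
          rw [← h15]
          exact le_inf (((h11.trans hΔ3).trans hΓ).trans (chain_suffix C hq1))
            ((h11.trans (h7.trans h5)).trans (bLeft h4))
        exact h16.trans bot_le
  · rw [mem_hist] at hp
    refine bElim hp fun q Δ₁ h1 h2 => ?_
    refine bIff_mpr (bAll ((h1.trans hΔ).trans hr) p) (le_inf ?_ ?_)
    · show Δ₁ ≤ mem p (play D E st C)
      rw [mem_play]
      exact bEx q.1 (le_inf (((h1.trans hΔ).trans hΓ).trans (chain_suffix C q.2)) h2)
    · refine bEx (nat q.1.2.length) (bEx (cov D E (st q.1.1)) (le_inf ?_ ?_))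
      · refine bMemR (bSymm ((h1.trans hΔ).trans hm)) (bNatMem ?_)
        have := q.2.length_le
        simp at this
        omega
      · rw [isOrdPair_eq]
        exact h2

theorem mem_congr_app {Γ : B} {h h' F σ : BName B} (hh : Γ ≤ eq h h') (hF : Γ ≤ mem (opair h F) σ) :
    Γ ≤ mem (opair h' F) σ := bMemL (bOpairCongr hh (bRefl _)) hF

theorem not_mengerII (D : CohenData B) {X τ : BName B} (E : SpaceData X τ) :
    (VB B).MengerII X τ = ⊥ := by
  unfold SetModel.MengerII
  rw [iSup_eq_bot]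
  intro σ
  by_contra hb0
  set b0 := (VB B).IsWinningII X τ σ with hb0def
  have hstrat : b0 ≤ (VB B).IsStrategyII X τ σ := by
    rw [hb0def]; unfold SetModel.IsWinningII; exact inf_le_left
  have hwin : b0 ≤ ⨅ w, ⨅ f, ((VB B).IsOmega w ⊓ (VB B).IsCoverSeq X τ f w) ⇨
    ⨅ x, (VB B).mem x X ⇨ ⨆ n, ⨆ m, ⨆ h, ⨆ F, ⨆ O,
      ((((VB B).mem n w ⊓ (VB B).IsSucc m n) ⊓ (VB B).IsRestriction h f m) ⊓ (VB B).App σ h F) ⊓
        ((VB B).mem O F ⊓ (VB B).mem x O) := by
    rw [hb0def]; unfold SetModel.IsWinningII; exact inf_le_right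
  clear_value b0
  unfold SetModel.IsStrategyII at hstrat
  obtain ⟨st, hst⟩ := exists_surjective_nat (List Bool)
  let C : (ℕ → Bool) → List ℕ → B := fun x π => covered σ (hist D E st π) (E.pt x)
  obtain ⟨x, hx⟩ := baire (e := D.e) D.dense D.ne b0 (fun π x => C x π) (by
    intro π u b hb hb'
    obtain ⟨k, hk⟩ := hst u
    have h1 : b ≤ ⨆ F, (mem (opair (hist D E st (k :: π)) F) σ ⊓ (VB B).IsFinite F) ⊓
        (VB B).Sub F (cov D E (st k)) := by
      have h2 : b ≤ ⨆ F, ((VB B).App σ (hist D E st (k :: π)) F ⊓ (VB B).IsFinite F) ⊓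
          ⨆ U, (VB B).App (hist D E st (k :: π)) (nat π.length : BName B) U ⊓ (VB B).Sub F U := by
        refine bMP (bAll (bAll (bAll (bAll (bRight (hb.trans hstrat)) (omg : BName B)) (nat π.length : BName B))
          (nat (k :: π).length : BName B)) (hist D E st (k :: π))) (le_inf (le_inf (le_inf ?_ ?_) ?_) ?_)
        · rw [isOmega_eq]; exact bRefl _
        · show b ≤ mem (nat π.length) omg
          rw [mem_omg]; exact bEx π.length (bRefl _)
        · rw [isSucc_eq]; exact bRefl _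
        · exact hist_coverSeq D E st (k :: π)
      refine bElim h2 fun F Δ _ h3 => bEx F (le_inf (le_inf ?_ ?_) ?_)
      · have := bLeft (bLeft h3)
        rwa [app_eq] at this
      · exact bRight (bLeft h3)
      · refine bElim (bRight h3) fun U Δ₁ _ h4 => ?_
        have h5 := bLeft h4
        rw [app_eq] at h5
        have h6 := bHistLast D E st h5
        exact le_iInf fun y => bImp fun Δ₂ h7 h8 => bMemR (h7.trans h6) (bMP (bAll (h7.trans (bRight h4)) y) h8)
    obtain ⟨b', hb1, hb2, t, ht, htx⟩ := extract D E hb' (hb.trans (bLeft hstrat)) h1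
    rw [hk] at ht
    exact ⟨b', hb1, hb2, t, ht, k, htx⟩)
  apply hb0
  rw [← le_bot_iff]
  have h1 := bMP (bAll (bAll hwin (omg : BName B)) (play D E st (C x)))
    (le_inf (by rw [isOmega_eq]; exact bRefl _) (play_coverSeq D E st (C x) hx))
  have h2 : b0 ≤ mem (E.pt x) X := by rw [E.hX]; exact bEx x (bRefl _)
  have h3 := bMP (bAll h1 (E.pt x)) h2
  refine bElim h3 fun n Δ hΔ h4 => bElim h4 fun m Δ₁ h5 h6 => bElim h6 fun h Δ₂ h7 h8 =>
    bElim h8 fun F Δ₃ h9 h10 => bElim h10 fun O Δ₄ h11 h12 => ?_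
  have hn : Δ₄ ≤ mem n omg := bLeft (bLeft (bLeft (bLeft h12)))
  have hm : Δ₄ ≤ eq m (suc n) := by
    rw [← isSucc_eq]; exact bRight (bLeft (bLeft (bLeft h12)))
  have hr : Δ₄ ≤ (VB B).IsRestriction h (play D E st (C x)) m := bRight (bLeft (bLeft h12))
  have happ : Δ₄ ≤ mem (opair h F) σ := by
    rw [← app_eq]; exact bRight (bLeft h12)
  have hO : Δ₄ ≤ mem O F ⊓ mem (E.pt x) O := bRight h12
  have hΔ4 : Δ₄ ≤ b0 := h11.trans (h9.trans (h7.trans (h5.trans hΔ)))
  rw [mem_omg] at hn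
  refine bElim hn fun i Δ₅ h13 h14 => ?_
  refine bElim ((h13.trans hΔ4).trans (chain_sup (C x) hx (i+1))) fun π Δ₆ h15 h16 => ?_
  obtain ⟨π, hπ⟩ := π
  cases π with
  | nil => simp at hπ
  | cons k π =>
    have hm' : Δ₆ ≤ eq m (nat (k :: π).length) := by
      rw [hπ]
      exact bTrans ((h15.trans h13).trans hm) (bSucCongr (h15.trans h14))
    have heq := restriction_eq D E st (C x) h16 hm' ((h15.trans h13).trans hr)
    have h17 : Δ₆ ≤ C x (k :: π) :=
      bEx F (bEx O (le_inf (mem_congr_app heq ((h15.trans h13).trans happ)) ((h15.trans h13).trans hO)))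
    exact bAbs (h16.trans (chain_le (C x) k π)) h17

end

end Pool.Agent.Helper84.MG
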