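import Pool.Agent.Helper84.MG.Forcing
import Pool.Agent.Helper84.MG.Main1

namespace Pool.Agent.Helper84.MG

open BName Cardinal

/-! ### The formulas in the universe of sets -/

theorem V_iff {a b : Prop} : SetModel.iffVal a b ↔ (a ↔ b) := by
  unfold SetModel.iffVal
  simp [iff_def]

theorem V_isPairSet {z x y : ZFSet.{0}} : V.IsPairSet z x y ↔ z = {x, y} := by
  unfold SetModel.IsPairSet
  rw [iInf_Prop_eq]
  simp only [V_iff, sup_Prop_eq]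
  rw [ZFSet.ext_iff]
  exact forall_congr' fun w => by rw [ZFSet.mem_pair]

theorem V_isOrdPair {p x y : ZFSet.{0}} : V.IsOrdPair p x y ↔ p = ZFSet.pair x y := by
  unfold SetModel.IsOrdPair
  rw [iInf_Prop_eq]
  simp only [V_iff, sup_Prop_eq, V_isPairSet]
  rw [ZFSet.ext_iff]
  refine forall_congr' fun w => ?_
  unfold ZFSet.pair
  rw [ZFSet.mem_pair, ZFSet.pair_eq_singleton]

theorem V_app {f x y : ZFSet.{0}} : V.App f x y ↔ ZFSet.pair x y ∈ f := by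
  unfold SetModel.App
  rw [iSup_Prop_eq]
  simp only [inf_Prop_eq, V_isOrdPair]
  exact ⟨fun ⟨p, h1, h2⟩ => h1 ▸ h2, fun h => ⟨_, rfl, h⟩⟩

theorem V_sub {a b : ZFSet.{0}} : V.Sub a b ↔ a ⊆ b := by
  unfold SetModel.Sub
  rw [iInf_Prop_eq]
  simp only [himp_iff_imp]
  exact Iff.rfl

theorem V_isFunction {f : ZFSet.{0}} : V.IsFunction f ↔
    (∀ p ∈ f, ∃ x y, p = ZFSet.pair x y) ∧
      ∀ x y y', ZFSet.pair x y ∈ f → ZFSet.pair x y' ∈ f → y = y' := by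
  unfold SetModel.IsFunction
  simp only [inf_Prop_eq, iInf_Prop_eq, iSup_Prop_eq, himp_iff_imp, V_isOrdPair, V_app]
  refine and_congr Iff.rfl ?_
  exact ⟨fun h x y y' h1 h2 => h x y y' ⟨h1, h2⟩, fun h x y y' h1 => h x y y' h1.1 h1.2⟩

theorem V_isFunOn {f D : ZFSet.{0}} : V.IsFunOn f D ↔ V.IsFunction f ∧
    ∀ x, x ∈ D ↔ ∃ y, ZFSet.pair x y ∈ f := by
  unfold SetModel.IsFunOn
  simp only [inf_Prop_eq, iInf_Prop_eq, iSup_Prop_eq, V_iff, V_app]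

theorem V_isSucc {m n : ZFSet.{0}} : V.IsSucc m n ↔ m = insert n n := by
  unfold SetModel.IsSucc
  simp only [iInf_Prop_eq, V_iff, sup_Prop_eq]
  rw [ZFSet.ext_iff]
  refine forall_congr' fun w => ?_
  rw [ZFSet.mem_insert_iff, or_comm]

theorem V_isInductive {w : ZFSet.{0}} : V.IsInductive w ↔ ∅ ∈ w ∧ ∀ n ∈ w, insert n n ∈ w := by
  unfold SetModel.IsInductive
  simp only [inf_Prop_eq, iInf_Prop_eq, iSup_Prop_eq, himp_iff_imp, V_isSucc]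
  refine and_congr ?_ ?_
  · constructor
    · rintro ⟨z, h1, h2⟩
      have h3 : z = ∅ := (ZFSet.eq_empty z).2 fun y hy => h1 y hy
      rw [← h3]; exact h2
    · intro h
      exact ⟨∅, fun y hy => ZFSet.notMem_empty y hy, h⟩
  · refine forall_congr' fun n => forall_congr' fun _ => ?_
    exact ⟨fun ⟨m, h1, h2⟩ => h1 ▸ h2, fun h => ⟨_, rfl, h⟩⟩

/-- the set of natural numbers -/
noncomputable def omegaZ : ZFSet.{0} := ZFSet.range natZ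

theorem mem_omegaZ {x : ZFSet.{0}} : x ∈ omegaZ ↔ ∃ n, natZ n = x := ZFSet.mem_range

theorem V_isOmega {w : ZFSet.{0}} : V.IsOmega w ↔ w = omegaZ := by
  have h0 : V.IsInductive omegaZ := by
    rw [V_isInductive]
    refine ⟨mem_omegaZ.2 ⟨0, rfl⟩, fun n hn => ?_⟩
    obtain ⟨k, rfl⟩ := mem_omegaZ.1 hn
    exact mem_omegaZ.2 ⟨k+1, rfl⟩
  have h1 : ∀ v, V.IsInductive v → omegaZ ⊆ v := by
    intro v hv z hz
    rw [V_isInductive] at hv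
    obtain ⟨k, rfl⟩ := mem_omegaZ.1 hz
    induction k with
    | zero => exact hv.1
    | succ k ih => exact hv.2 _ (ih (mem_omegaZ.2 ⟨k, rfl⟩))
  unfold SetModel.IsOmega
  simp only [inf_Prop_eq, iInf_Prop_eq, himp_iff_imp, V_sub]
  constructor
  · rintro ⟨h2, h3⟩
    exact ZFSet.ext fun z => ⟨fun hz => h3 omegaZ h0 hz, fun hz => h1 w h2 hz⟩
  · rintro rfl
    exact ⟨h0, h1⟩

theorem V_isFinite {F : ZFSet.{0}} : V.IsFinite F ↔ ∃ k g, V.IsFunOn g (natZ k) ∧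
    ∀ y ∈ F, ∃ i, ZFSet.pair i y ∈ g := by
  unfold SetModel.IsFinite
  simp only [inf_Prop_eq, iInf_Prop_eq, iSup_Prop_eq, himp_iff_imp, V_isOmega, V_app]
  constructor
  · rintro ⟨w, n, g, ⟨⟨h1, h2⟩, h3⟩, h4⟩
    rw [h1] at h2
    obtain ⟨k, rfl⟩ := mem_omegaZ.1 h2
    exact ⟨k, g, h3, h4⟩
  · rintro ⟨k, g, h1, h2⟩
    exact ⟨omegaZ, natZ k, g, ⟨⟨rfl, mem_omegaZ.2 ⟨k, rfl⟩⟩, h1⟩, h2⟩

theorem V_isOpenSet {X τ O : ZFSet.{0}} : V.IsOpenSet X τ O ↔ O ⊆ X ∧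
    ∀ x ∈ O, ∃ T ∈ τ, x ∈ T ∧ T ⊆ O := by
  unfold SetModel.IsOpenSet
  simp only [inf_Prop_eq, iInf_Prop_eq, iSup_Prop_eq, himp_iff_imp, V_sub]
  refine and_congr Iff.rfl (forall_congr' fun x => forall_congr' fun _ => exists_congr fun T => ?_)
  exact and_assoc

theorem V_isOpenCover {X τ U : ZFSet.{0}} : V.IsOpenCover X τ U ↔
    (∀ O ∈ U, V.IsOpenSet X τ O) ∧ ∀ x ∈ X, ∃ O ∈ U, x ∈ O := by
  unfold SetModel.IsOpenCover
  simp only [inf_Prop_eq, iInf_Prop_eq, iSup_Prop_eq, himp_iff_imp]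

theorem V_isCoverSeq {X τ h D : ZFSet.{0}} : V.IsCoverSeq X τ h D ↔ V.IsFunOn h D ∧
    ∀ i U, ZFSet.pair i U ∈ h → V.IsOpenCover X τ U := by
  unfold SetModel.IsCoverSeq
  simp only [inf_Prop_eq, iInf_Prop_eq, himp_iff_imp, V_app]

theorem V_isRestriction {h f m : ZFSet.{0}} : V.IsRestriction h f m ↔
    ∀ p, p ∈ h ↔ (p ∈ f ∧ ∃ i y, i ∈ m ∧ p = ZFSet.pair i y) := by
  unfold SetModel.IsRestriction
  simp only [inf_Prop_eq, iInf_Prop_eq, iSup_Prop_eq, V_iff, V_isOrdPair]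

/-! ### The Cantor space as a set -/

/-- the real coded by `x` -/
noncomputable def cx (x : ℕ → Bool) : ZFSet.{0} := ZFSet.range fun n : {n // x n = true} => natZ n.1

theorem natZ_mem_cx {x : ℕ → Bool} {n : ℕ} : natZ n ∈ cx x ↔ x n = true := by
  unfold cx
  rw [ZFSet.mem_range]
  constructor
  · rintro ⟨m, hm⟩
    rw [← natZ_inj hm]
    exact m.2
  · intro h
    exact ⟨⟨n, h⟩, rfl⟩

theorem cx_inj {x y : ℕ → Bool} (h : cx x = cx y) : x = y := by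
  funext n
  have h1 : x n = true ↔ y n = true := by rw [← natZ_mem_cx, ← natZ_mem_cx, h]
  cases hx : x n <;> cases hy : y n <;> simp_all

noncomputable def setZ (A : Set (ℕ → Bool)) : ZFSet.{0} := ZFSet.range fun x : A => cx x.1

theorem mem_setZ {A : Set (ℕ → Bool)} {z : ZFSet.{0}} : z ∈ setZ A ↔ ∃ x ∈ A, cx x = z := by
  unfold setZ
  rw [ZFSet.mem_range]
  exact ⟨fun ⟨x, hx⟩ => ⟨x.1, x.2, hx⟩, fun ⟨x, hx, h⟩ => ⟨⟨x, hx⟩, h⟩⟩

theorem cx_mem_setZ {A : Set (ℕ → Bool)} {x : ℕ → Bool} : cx x ∈ setZ A ↔ x ∈ A := by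
  rw [mem_setZ]
  exact ⟨fun ⟨y, hy, h⟩ => cx_inj h ▸ hy, fun h => ⟨x, h, rfl⟩⟩

noncomputable def XZ : ZFSet.{0} := setZ Set.univ

noncomputable def τZ : ZFSet.{0} := ZFSet.range fun O : {O : Set (ℕ → Bool) // IsOpen O} => setZ O.1

theorem mem_τZ {z : ZFSet.{0}} : z ∈ τZ ↔ ∃ O : Set (ℕ → Bool), IsOpen O ∧ setZ O = z := by
  unfold τZ
  rw [ZFSet.mem_range]
  exact ⟨fun ⟨O, h⟩ => ⟨O.1, O.2, h⟩, fun ⟨O, hO, h⟩ => ⟨⟨O, hO⟩, h⟩⟩

theorem isTopologyOn : IsTopologyOn XZ τZ where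
  subset := by
    intro U hU z hz
    obtain ⟨O, _, rfl⟩ := mem_τZ.1 hU
    obtain ⟨x, _, rfl⟩ := mem_setZ.1 hz
    exact cx_mem_setZ.2 (Set.mem_univ _)
  univ := mem_τZ.2 ⟨Set.univ, isOpen_univ, rfl⟩
  inter := by
    intro U hU W hW
    obtain ⟨O, hO, rfl⟩ := mem_τZ.1 hU
    obtain ⟨O', hO', rfl⟩ := mem_τZ.1 hW
    refine mem_τZ.2 ⟨O ∩ O', hO.inter hO', ?_⟩
    ext z
    rw [ZFSet.mem_inter]
    constructor
    · intro h
      obtain ⟨x, hx, rfl⟩ := mem_setZ.1 h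
      exact ⟨cx_mem_setZ.2 hx.1, cx_mem_setZ.2 hx.2⟩
    · rintro ⟨h1, h2⟩
      obtain ⟨x, hx, rfl⟩ := mem_setZ.1 h1
      exact cx_mem_setZ.2 ⟨hx, cx_mem_setZ.1 h2⟩
  union := by
    intro A hA
    refine mem_τZ.2 ⟨{x | ∃ O ∈ A, cx x ∈ O}, ?_, ?_⟩
    · rw [isOpen_iff_mem_nhds]
      rintro x ⟨O, hO, hx⟩
      obtain ⟨O', hO', rfl⟩ := mem_τZ.1 (hA hO)
      refine Filter.mem_of_superset (hO'.mem_nhds (cx_mem_setZ.1 hx)) fun y hy => ?_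
      exact ⟨_, hO, cx_mem_setZ.2 hy⟩
    · ext z
      rw [ZFSet.mem_sUnion]
      constructor
      · intro h
        obtain ⟨x, ⟨O, hO, hx⟩, rfl⟩ := mem_setZ.1 h
        exact ⟨O, hO, hx⟩
      · rintro ⟨O, hO, hz⟩
        obtain ⟨O', _, rfl⟩ := mem_τZ.1 (hA hO)
        obtain ⟨x, _, rfl⟩ := mem_setZ.1 hz
        exact cx_mem_setZ.2 ⟨_, hO, hz⟩

theorem exists_finite_sub {U : ZFSet.{0}} (hU : V.IsOpenCover XZ τZ U) :
    ∃ F, V.IsFinite F ∧ F ⊆ U ∧ ∀ x ∈ XZ, ∃ O ∈ F, x ∈ O := by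
  rw [V_isOpenCover] at hU
  obtain ⟨h1, h2⟩ := hU
  have hopen : ∀ O : {O // O ∈ U}, IsOpen {x : ℕ → Bool | cx x ∈ O.1} := by
    intro O
    rw [isOpen_iff_mem_nhds]
    intro x hx
    obtain ⟨_, h3⟩ := V_isOpenSet.1 (h1 O.1 O.2)
    obtain ⟨T, hT, hxT, hTO⟩ := h3 (cx x) hx
    obtain ⟨O', hO', rfl⟩ := mem_τZ.1 hT
    refine Filter.mem_of_superset (hO'.mem_nhds (cx_mem_setZ.1 hxT)) fun y hy => ?_
    exact hTO (cx_mem_setZ.2 hy)
  obtain ⟨t, ht⟩ := isCompact_univ.elim_finite_subcover (fun O : {O // O ∈ U} => {x : ℕ → Bool | cx x ∈ O.1})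
    hopen (fun x _ => by
      obtain ⟨O, hO, hx⟩ := h2 (cx x) (cx_mem_setZ.2 (Set.mem_univ x))
      exact Set.mem_iUnion.2 ⟨⟨O, hO⟩, hx⟩)
  let e := t.equivFin
  let s : Fin t.card → ZFSet.{0} := fun i => (e.symm i).1.1
  refine ⟨ZFSet.range s, V_isFinite.2 ⟨t.card, ZFSet.range fun i : Fin t.card => ZFSet.pair (natZ i) (s i), ?_, ?_⟩, ?_, ?_⟩
  · rw [V_isFunOn, V_isFunction]
    refine ⟨⟨fun p hp => ?_, fun x y y' hy hy' => ?_⟩, fun x => ⟨fun hx => ?_, fun hx => ?_⟩⟩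
    · obtain ⟨i, rfl⟩ := ZFSet.mem_range.1 hp
      exact ⟨_, _, rfl⟩
    · obtain ⟨i, hi⟩ := ZFSet.mem_range.1 hy
      obtain ⟨j, hj⟩ := ZFSet.mem_range.1 hy'
      obtain ⟨h3, h4⟩ := ZFSet.pair_inj.1 hi
      obtain ⟨h5, h6⟩ := ZFSet.pair_inj.1 hj
      have : i = j := Fin.ext (natZ_inj (h3.trans h5.symm))
      rw [← h4, ← h6, this]
    · obtain ⟨i, hi, rfl⟩ := mem_natZ.1 hx
      exact ⟨s ⟨i, hi⟩, ZFSet.mem_range.2 ⟨⟨i, hi⟩, rfl⟩⟩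
    · obtain ⟨y, hy⟩ := hx
      obtain ⟨i, hi⟩ := ZFSet.mem_range.1 hy
      rw [← (ZFSet.pair_inj.1 hi).1]
      exact mem_natZ.2 ⟨i, i.2, rfl⟩
  · intro y hy
    obtain ⟨i, rfl⟩ := ZFSet.mem_range.1 hy
    exact ⟨natZ i, ZFSet.mem_range.2 ⟨i, rfl⟩⟩
  · intro y hy
    obtain ⟨i, rfl⟩ := ZFSet.mem_range.1 hy
    exact (e.symm i).1.2
  · intro z hz
    obtain ⟨x, _, rfl⟩ := mem_setZ.1 hz
    have hx := ht (Set.mem_univ x)
    rw [Set.mem_iUnion₂] at hx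
    obtain ⟨O, hO, hxO⟩ := hx
    exact ⟨O.1, ZFSet.mem_range.2 ⟨e ⟨O, hO⟩, by simp [s]⟩, hxO⟩

theorem succ_inj {n n' : ZFSet.{0}} (h : insert n n = insert n' n') : n = n' := by
  by_contra hne
  have h1 : n ∈ insert n' n' := h ▸ ZFSet.mem_insert n n
  have h2 : n' ∈ insert n n := h.symm ▸ ZFSet.mem_insert n' n'
  rw [ZFSet.mem_insert_iff] at h1 h2
  rcases h1 with h1 | h1
  · exact hne h1
  · rcases h2 with h2 | h2
    · exact hne h2.symm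
    · exact ZFSet.mem_asymm h1 h2

theorem ground_mengerII : V.MengerII XZ τZ := by
  classical
  -- histories
  let IsHist : ZFSet.{0} → Prop := fun h => ∃ n ∈ omegaZ, V.IsCoverSeq XZ τZ h (insert n n)
  have hchoose : ∀ h, IsHist h → ∃ F, ∃ n ∈ omegaZ, V.IsCoverSeq XZ τZ h (insert n n) ∧
      (V.IsFinite F ∧ (∃ U, ZFSet.pair n U ∈ h ∧ F ⊆ U) ∧ ∀ x ∈ XZ, ∃ O ∈ F, x ∈ O) := by
    rintro h ⟨n, hn, hh⟩
    have hh' := V_isCoverSeq.1 hh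
    obtain ⟨U, hU⟩ := ((V_isFunOn.1 hh'.1).2 n).1 (ZFSet.mem_insert n n)
    obtain ⟨F, hF1, hF2, hF3⟩ := exists_finite_sub (hh'.2 n U hU)
    exact ⟨F, n, hn, hh, hF1, ⟨U, hU, hF2⟩, hF3⟩
  let ans : ZFSet.{0} → ZFSet.{0} := fun h => if hh : IsHist h then (hchoose h hh).choose else ∅
  have hans : ∀ h, IsHist h → ∃ n ∈ omegaZ, V.IsCoverSeq XZ τZ h (insert n n) ∧
      (V.IsFinite (ans h) ∧ (∃ U, ZFSet.pair n U ∈ h ∧ ans h ⊆ U) ∧ ∀ x ∈ XZ, ∃ O ∈ ans h, x ∈ O) := by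
    intro h hh
    have h1 : ans h = (hchoose h hh).choose := dif_pos hh
    rw [h1]
    exact (hchoose h hh).choose_spec
  let HS : ZFSet.{0} := ZFSet.sep IsHist (ZFSet.powerset (ZFSet.prod omegaZ (ZFSet.powerset (ZFSet.powerset XZ))))
  have hHS : ∀ h, h ∈ HS ↔ IsHist h := by
    intro h
    show h ∈ ZFSet.sep IsHist _ ↔ _
    rw [ZFSet.mem_sep]
    refine ⟨fun h1 => h1.2, fun h1 => ⟨?_, h1⟩⟩
    obtain ⟨n, hn, hh⟩ := h1
    rw [ZFSet.mem_powerset]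
    intro p hp
    have hh' := V_isCoverSeq.1 hh
    have hf := V_isFunOn.1 hh'.1
    obtain ⟨x, y, rfl⟩ := (V_isFunction.1 hf.1).1 p hp
    refine ZFSet.pair_mem_prod.2 ⟨?_, ?_⟩
    · have hx : x ∈ insert n n := (hf.2 x).2 ⟨y, hp⟩
      obtain ⟨k, rfl⟩ := mem_omegaZ.1 hn
      rw [ZFSet.mem_insert_iff] at hx
      rcases hx with rfl | hx
      · exact hn
      · obtain ⟨i, _, rfl⟩ := mem_natZ.1 hx
        exact mem_omegaZ.2 ⟨i, rfl⟩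
    · rw [ZFSet.mem_powerset]
      intro O hO
      rw [ZFSet.mem_powerset]
      exact (V_isOpenSet.1 ((V_isOpenCover.1 (hh'.2 x y hp)).1 O hO)).1
  let σ : ZFSet.{0} := ZFSet.range fun h : {h // h ∈ HS} => ZFSet.pair h.1 (ans h.1)
  have hσ : ∀ h F, ZFSet.pair h F ∈ σ ↔ (IsHist h ∧ F = ans h) := by
    intro h F
    show _ ∈ ZFSet.range _ ↔ _
    rw [ZFSet.mem_range]
    constructor
    · rintro ⟨⟨h', hh'⟩, he⟩
      obtain ⟨h1, h2⟩ := ZFSet.pair_inj.1 he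
      simp only at h1 h2
      subst h1
      exact ⟨(hHS _).1 hh', h2.symm⟩
    · rintro ⟨h1, rfl⟩
      exact ⟨⟨h, (hHS h).2 h1⟩, rfl⟩
  unfold SetModel.MengerII
  rw [iSup_Prop_eq]
  refine ⟨σ, ?_⟩
  unfold SetModel.IsWinningII SetModel.IsStrategyII
  simp only [inf_Prop_eq, iInf_Prop_eq, iSup_Prop_eq, himp_iff_imp, V_isOmega, V_isSucc, V_app, V_sub,
    V_isRestriction]
  refine ⟨⟨?_, ?_⟩, ?_⟩
  · rw [V_isFunction]
    refine ⟨fun p hp => ?_, fun x y y' hy hy' => ?_⟩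
    · obtain ⟨h, rfl⟩ := ZFSet.mem_range.1 hp
      exact ⟨_, _, rfl⟩
    · rw [((hσ x y).1 hy).2, ((hσ x y').1 hy').2]
  · rintro w n m h ⟨⟨⟨rfl, hn⟩, rfl⟩, hh⟩
    have hist : IsHist h := ⟨n, hn, hh⟩
    obtain ⟨n', hn', hh', hF1, hF2, _⟩ := hans h hist
    have hnn : n = n' := by
      apply succ_inj
      have h1 := (V_isFunOn.1 (V_isCoverSeq.1 hh).1).2
      have h2 := (V_isFunOn.1 (V_isCoverSeq.1 hh').1).2
      exact ZFSet.ext fun z => (h1 z).trans (h2 z).symm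
    rw [← hnn] at hF2
    exact ⟨ans h, ⟨(hσ _ _).2 ⟨hist, rfl⟩, hF1⟩, hF2⟩
  · rintro w f ⟨rfl, hf⟩ x hx
    have hf' := V_isCoverSeq.1 hf
    have hfun := V_isFunOn.1 hf'.1
    have h0 : (∅ : ZFSet.{0}) ∈ omegaZ := mem_omegaZ.2 ⟨0, rfl⟩
    obtain ⟨U, hU⟩ := (hfun.2 ∅).1 h0
    let h : ZFSet.{0} := {ZFSet.pair ∅ U}
    have hmem : ∀ p, p ∈ h ↔ p = ZFSet.pair ∅ U := fun p => ZFSet.mem_singleton
    have hcs : V.IsCoverSeq XZ τZ h (insert ∅ ∅) := by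
      rw [V_isCoverSeq, V_isFunOn, V_isFunction]
      refine ⟨⟨⟨fun p hp => ⟨∅, U, (hmem p).1 hp⟩, fun x y y' hy hy' => ?_⟩, fun x => ?_⟩, fun i U' hU' => ?_⟩
      · rw [hmem, ZFSet.pair_inj] at hy hy'
        rw [hy.2, hy'.2]
      · rw [ZFSet.mem_insert_iff]
        constructor
        · rintro (rfl | hx)
          · exact ⟨U, (hmem _).2 rfl⟩
          · exact absurd hx (ZFSet.notMem_empty _)
        · rintro ⟨y, hy⟩
          rw [hmem, ZFSet.pair_inj] at hy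
          exact Or.inl hy.1
      · rw [hmem, ZFSet.pair_inj] at hU'
        rw [hU'.2]
        exact hf'.2 _ _ hU
    have hist : IsHist h := ⟨∅, h0, hcs⟩
    obtain ⟨n', _, _, _, _, hF3⟩ := hans h hist
    obtain ⟨O, hO, hxO⟩ := hF3 x hx
    refine ⟨∅, insert ∅ ∅, h, ans h, O, ⟨⟨⟨h0, rfl⟩, fun p => ?_⟩, (hσ _ _).2 ⟨hist, rfl⟩⟩, hO, hxO⟩
    rw [hmem]
    constructor
    · rintro rfl
      exact ⟨hU, ∅, U, ZFSet.mem_insert _ _, rfl⟩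
    · rintro ⟨hpf, i, y, hi, rfl⟩
      rw [ZFSet.mem_insert_iff] at hi
      rcases hi with rfl | hi
      · rw [(V_isFunction.1 hfun.1).2 ∅ y U hpf hU]
      · exact absurd hi (ZFSet.notMem_empty _)

/-! ### the names -/

noncomputable def spaceData (B : Type 1) [CompleteBooleanAlgebra B] :
    SpaceData (B := B) (check XZ) (check τZ) where
  pt x := check (cx x)
  cyl t := check (setZ {x | Seg t x})
  hX z := by
    rw [mem_check]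
    refine le_antisymm (iSup_le fun y => ?_) (iSup_le fun x => ?_)
    · obtain ⟨y, hy⟩ := y
      obtain ⟨x, _, rfl⟩ := mem_setZ.1 hy
      exact le_iSup (fun x => BName.eq z (check (cx x))) x
    · exact le_iSup (fun y : {y // y ∈ XZ} => BName.eq z (check y.1)) ⟨cx x, cx_mem_setZ.2 (Set.mem_univ x)⟩
  hcyl z t := by
    rw [mem_check]
    refine le_antisymm (iSup_le fun y => ?_) (iSup_le fun x => ?_)
    · obtain ⟨y, hy⟩ := y
      obtain ⟨x, hx, rfl⟩ := mem_setZ.1 hy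
      exact le_iSup (fun x : {x // Seg t x} => BName.eq z (check (cx x.1))) ⟨x, hx⟩
    · exact le_iSup (fun y : {y // y ∈ setZ {x | Seg t x}} => BName.eq z (check y.1))
        ⟨cx x.1, cx_mem_setZ.2 x.2⟩
  hne x y h := check_ne fun h' => h (cx_inj h')
  hτ t := by
    rw [eq_top_iff, mem_check]
    refine bEx (φ := fun y : {y // y ∈ τZ} => BName.eq (check (setZ {x | Seg t x})) (check y.1))
      ⟨setZ {x | Seg t x}, mem_τZ.2 ⟨_, isOpen_seg t, rfl⟩⟩ (bRefl _)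

theorem top_ne_bot (Q : ForcingNotion) : (⊤ : RegOpen Q.Cond) ≠ ⊥ := by
  obtain ⟨p, hp⟩ := Q.nonempty
  intro h
  have h1 : (⟨p, hp⟩ : Q.Cond) ∈ (⊤ : RegOpen Q.Cond).carrier := Set.mem_univ _
  rw [h] at h1
  exact h1

theorem main : ∃ (Q : ForcingNotion) (X τ : ZFSet.{0}), Q.StronglyProperStat ∧
    IsTopologyOn X τ ∧ V.MengerII X τ ∧ Q.valMengerII X τ = ⊥ ∧ (⊤ : RegOpen Q.Cond) ≠ ⊥ :=
  ⟨cohen, XZ, τZ, cohen_stronglyProper, isTopologyOn, ground_mengerII,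
    not_mengerII cohenData (spaceData _), top_ne_bot _⟩

end Pool.Agent.Helper84.MG
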